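import Pool.Agent.Lib.MP_f4f4db_co.Claw.Rules

/-!
# Claw-free point sets: the subspaces `Gj` (C4)
-/

namespace EHProj.Claw

open Module

variable {V : Type} [AddCommGroup V] [Module (ZMod 2) V] {X : Set V} {W : Submodule (ZMod 2) V}

/-! ### C4 -/

theorem le_gj (j : ℕ) : W ≤ Gj X W j := le_sup_left

theorem gj_anti {j j' : ℕ} (h : j ≤ j') : Gj X W j' ≤ Gj X W j := by
  have h1 : {v | v ∉ W ∧ j' ≤ cod X W v} ⊆ {v | v ∉ W ∧ j ≤ cod X W v} :=
    fun v hv => ⟨hv.1, h.trans hv.2⟩
  exact sup_le_sup_left (Submodule.span_mono h1) W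

theorem gj_zero : Gj X W 0 = ⊤ := by
  rw [eq_top_iff]
  intro v _
  by_cases hv : v ∈ W
  · exact le_gj 0 hv
  · exact Submodule.mem_sup_right (Submodule.subset_span ⟨hv, Nat.zero_le _⟩)

theorem gj_top [Finite V] {j : ℕ} (h : finrank (ZMod 2) W < j) : Gj X W j = W := by
  have h1 : {v | v ∉ W ∧ j ≤ cod X W v} = (∅ : Set V) := by
    rw [Set.eq_empty_iff_forall_notMem]
    rintro v ⟨-, hv⟩
    unfold cod at hv
    omega
  unfold Gj
  rw [h1, Submodule.span_empty, sup_bot_eq]

private theorem c4_cod_congr {v v' : V} (h : Dir X W v = Dir X W v') : cod X W v = cod X W v' := by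
  unfold cod
  rw [h]

private theorem c4_span [Finite V] (S : Setup X W) {j : ℕ} {s : V}
    (hs : s ∈ Submodule.span (ZMod 2) {v | v ∉ W ∧ j ≤ cod X W v}) :
    ∀ z, (z ∉ W ∧ cod X W z + 2 ≤ j) → (z + s ∉ W ∧ cod X W (z + s) + 2 ≤ j) := by
  induction hs using Submodule.span_induction with
  | mem v hv =>
    rintro z ⟨hzW, hz⟩
    have hzv : z + v ∉ W := by
      intro hcon
      have h1 := c4_cod_congr (dir_congr (X := X) hcon)
      have h2 := hv.2
      omega
    have hT : Tri W z v (z + v) := ⟨hzW, hv.1, hzv, by rw [self_add]; exact W.zero_mem⟩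
    have h3 : finrank (ZMod 2) (Dir X W z) ≤ finrank (ZMod 2) W := Submodule.finrank_mono dir_le
    have h4 : finrank (ZMod 2) (Dir X W v) + 2 ≤ finrank (ZMod 2) (Dir X W z) := by
      have h2 := hv.2
      have h5 : finrank (ZMod 2) (Dir X W v) ≤ finrank (ZMod 2) W :=
        Submodule.finrank_mono dir_le
      unfold cod at h2 hz
      omega
    have h6 := (gap S hT h4).1
    refine ⟨hzv, ?_⟩
    rw [c4_cod_congr h6]
    exact hz
  | zero =>
    intro z hz
    rw [add_zero]
    exact hz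
  | add s s' _ _ ih ih' =>
    intro z hz
    rw [← add_assoc]
    exact ih' _ (ih z hz)
  | smul c s _ ih =>
    intro z hz
    have hc : ∀ c : ZMod 2, c = 0 ∨ c = 1 := by decide
    rcases hc c with rfl | rfl
    · rw [zero_smul, add_zero]
      exact hz
    · rw [one_smul]
      exact ih z hz

theorem gj_cod [Finite V] (S : Setup X W) {g : V} {j : ℕ} (hg : g ∈ Gj X W j) (hW : g ∉ W) :
    j ≤ cod X W g + 1 := by
  by_contra hcon
  have hz : cod X W g + 2 ≤ j := by omega
  obtain ⟨w, hw, s, hs, hws⟩ := Submodule.mem_sup.1 hg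
  have h1 : g + w ∉ W ∧ cod X W (g + w) + 2 ≤ j := by
    refine ⟨fun h => hW (cancel_right h hw), ?_⟩
    rw [c4_cod_congr (dir_shift (X := X) (v := g) hw)]
    exact hz
  have h2 := (c4_span S hs _ h1).1
  rw [add_assoc, hws, self_add] at h2
  exact h2 W.zero_mem

theorem not_gj {g : V} {j : ℕ} (hg : g ∉ Gj X W (j + 1)) : cod X W g ≤ j := by
  by_contra hcon
  apply hg
  by_cases hv : g ∈ W
  · exact le_gj _ hv
  · exact Submodule.mem_sup_right (Submodule.subset_span ⟨hv, by omega⟩)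

end EHProj.Claw
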