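import Pool.Agent.Lib.MP_f4f4db_co.Claw.Rules

/-!
# Claw-free point sets: the layer lemma (C5)
-/

namespace EHProj.Claw

open Module

variable {V : Type} [AddCommGroup V] [Module (ZMod 2) V] {X : Set V} {W : Submodule (ZMod 2) V}

private theorem c5_eq {x y : V} (h : x + y = 0) : x = y := by
  have h1 : x + y + y = y := by rw [h, zero_add]
  rwa [add_assoc, self_add, add_zero] at h1

private theorem c5_ne {x y : V} (h : x ≠ y) : x + y ≠ 0 := fun h' => h (c5_eq h')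

/-- incomparable directions -/
private def c5_Inc (X : Set V) (W : Submodule (ZMod 2) V) (x y : V) : Prop :=
  ¬ Dir X W x ≤ Dir X W y ∧ ¬ Dir X W y ≤ Dir X W x

private theorem c5_inc_symm {x y : V} (h : c5_Inc X W x y) : c5_Inc X W y x := ⟨h.2, h.1⟩

private theorem c5_inc_ne {x y : V} (h : c5_Inc X W x y) : x ≠ y := by
  rintro rfl
  exact h.1 le_rfl

private theorem c5_inc_dne {x y : V} (h : c5_Inc X W x y) : Dir X W x ≠ Dir X W y :=
  fun e => h.1 e.le

private theorem c5_congr {x x' y : V} (h : c5_Inc X W x y) (e : Dir X W x = Dir X W x') :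
    c5_Inc X W x' y := by
  unfold c5_Inc at *
  rwa [← e]

/-- the elements of `K` with an incomparable partner -/
private def c5_P (X : Set V) (W K : Submodule (ZMod 2) V) (x : V) : Prop :=
  x ∈ K ∧ x ≠ 0 ∧ ∃ y ∈ K, y ≠ 0 ∧ c5_Inc X W x y

private theorem c5_tri {K : Submodule (ZMod 2) V} (hK : ∀ x ∈ K, x ∈ W → x = 0) {p q r : V}
    (hp : p ∈ K) (hq : q ∈ K) (hr : r ∈ K) (hp0 : p ≠ 0) (hq0 : q ≠ 0) (hr0 : r ≠ 0)
    (h : p + q + r = 0) : Tri W p q r :=
  ⟨fun h' => hp0 (hK p hp h'), fun h' => hq0 (hK q hq h'), fun h' => hr0 (hK r hr h'),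
    by rw [h]; exact W.zero_mem⟩

private theorem c5_tri2 {K : Submodule (ZMod 2) V} (hK : ∀ x ∈ K, x ∈ W → x = 0) {p q : V}
    (hp : p ∈ K) (hq : q ∈ K) (hp0 : p ≠ 0) (hq0 : q ≠ 0) (hpq : p ≠ q) : Tri W p q (p + q) :=
  c5_tri hK hp hq (K.add_mem hp hq) hp0 hq0 (c5_ne hpq) (self_add _)

private theorem c5_le [Finite V] (S : Setup X W) {K : Submodule (ZMod 2) V}
    (hK : ∀ x ∈ K, x ∈ W → x = 0) {u v : V} (hu : u ∈ K) (hu0 : u ≠ 0) (hv : v ∈ K) (hv0 : v ≠ 0)
    (h : finrank (ZMod 2) (Dir X W u) < finrank (ZMod 2) (Dir X W v)) :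
    Dir X W u ≤ Dir X W v := by
  by_contra hc
  have h2 : ¬ Dir X W v ≤ Dir X W u := fun h' => by
    have := Submodule.finrank_mono h'
    omega
  have hne : u ≠ v := by
    rintro rfl
    exact lt_irrefl _ h
  have := (gamma_dim S (c5_tri2 hK hu hv hu0 hv0 hne) hc h2).1
  omega

private theorem c5_dim_aux [Finite V] (S : Setup X W) {K : Submodule (ZMod 2) V}
    (hK : ∀ x ∈ K, x ∈ W → x = 0) {a : ℕ} {x x2 : V} (hx : c5_P X W K x) (hx2 : c5_P X W K x2)
    (h1 : finrank (ZMod 2) (Dir X W x) = a) (h2 : finrank (ZMod 2) (Dir X W x2) = a + 1) :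
    False := by
  obtain ⟨hxK, hx0, y, hyK, hy0, hxy⟩ := hx
  obtain ⟨hx2K, hx20, y2, hy2K, hy20, hxy2⟩ := hx2
  have g1 := gamma_dim S (c5_tri2 hK hxK hyK hx0 hy0 (c5_inc_ne hxy)) hxy.1 hxy.2
  have g2 := gamma_dim S (c5_tri2 hK hx2K hy2K hx20 hy20 (c5_inc_ne hxy2)) hxy2.1 hxy2.2
  have l1 := c5_le S hK hxK hx0 hx2K hx20 (by omega)
  have l2 := c5_le S hK hxK hx0 hy2K hy20 (by omega)
  have l3 := c5_le S hK hyK hy0 hx2K hx20 (by omega)
  have l4 := c5_le S hK hyK hy0 hy2K hy20 (by omega)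
  have l5 : Dir X W x ⊔ Dir X W y ≤ Dir X W x2 ⊓ Dir X W y2 :=
    sup_le (le_inf l1 l2) (le_inf l3 l4)
  have l6 := Submodule.finrank_mono l5
  omega

section
variable [Finite V] (S : Setup X W) {K : Submodule (ZMod 2) V}
  (hK : ∀ x ∈ K, x ∈ W → x = 0) {a : ℕ}
  (hdim : ∀ x ∈ K, x ≠ 0 → finrank (ZMod 2) (Dir X W x) = a ∨
      finrank (ZMod 2) (Dir X W x) = a + 1)

include S hK hdim

private theorem c5_dimP {x y : V} (hx : c5_P X W K x) (hy : c5_P X W K y) :
    finrank (ZMod 2) (Dir X W x) = finrank (ZMod 2) (Dir X W y) := by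
  rcases hdim x hx.1 hx.2.1 with h1 | h1 <;> rcases hdim y hy.1 hy.2.1 with h2 | h2
  · rw [h1, h2]
  · exact (c5_dim_aux S hK hx hy h1 h2).elim
  · exact (c5_dim_aux S hK hy hx h2 h1).elim
  · rw [h1, h2]

private theorem c5_incP {x y : V} (hx : c5_P X W K x) (hy : c5_P X W K y)
    (h : Dir X W x ≠ Dir X W y) : c5_Inc X W x y := by
  have h1 := c5_dimP S hK hdim hx hy
  exact ⟨fun h' => h (Submodule.eq_of_le_of_finrank_eq h' h1),
    fun h' => h (Submodule.eq_of_le_of_finrank_eq h' h1.symm).symm⟩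

omit [Finite V] S hK hdim in
private theorem c5_P_congr {x y : V} (hx : c5_P X W K x) (hy : y ∈ K) (hy0 : y ≠ 0)
    (h : Dir X W x = Dir X W y) : c5_P X W K y := by
  obtain ⟨-, -, z, hz, hz0, hxz⟩ := hx
  exact ⟨hy, hy0, z, hz, hz0, c5_congr hxz h⟩

private theorem c5_add_ne {x y : V} (hx : c5_P X W K x) (hy : c5_P X W K y)
    (h : Dir X W x ≠ Dir X W y) : c5_P X W K (x + y) := by
  have h1 := c5_incP S hK hdim hx hy h
  have g := gamma_dim S (c5_tri2 hK hx.1 hy.1 hx.2.1 hy.2.1 (c5_inc_ne h1)) h1.1 h1.2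
  exact ⟨K.add_mem hx.1 hy.1, c5_ne (c5_inc_ne h1), x, hx.1, hx.2.1, g.2.2.2.2.2,
    g.2.2.2.2.1⟩

omit [Finite V] hdim in
private theorem c5_back {x x' y : V} (hx : x ∈ K) (hx0 : x ≠ 0) (hx' : x' ∈ K) (hx'0 : x' ≠ 0)
    (hy : y ∈ K) (hy0 : y ≠ 0) (h : Dir X W x = Dir X W x') (hi : c5_Inc X W x y)
    (hne : x + x' + y ≠ 0) : Dir X W (x + x' + y) = Dir X W y := by
  have hT : Tri W y x (x + y) :=
    c5_tri hK hy hx (K.add_mem hx hy) hy0 hx0 (c5_ne (c5_inc_ne hi))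
      (by rw [add_comm y x]; exact self_add _)
  have hT' : Tri W (x + y) x' (x + x' + y) :=
    c5_tri hK (K.add_mem hx hy) hx' (K.add_mem (K.add_mem hx hx') hy) (c5_ne (c5_inc_ne hi))
      hx'0 hne (by rw [show x + y + x' = x + x' + y by abel]; exact self_add _)
  exact gamma_back S hT hT' h.symm rfl hi.2 hi.1

private theorem c5_notP {x x' : V} (hx : c5_P X W K x) (hx' : c5_P X W K x')
    (h : Dir X W x = Dir X W x') (_hne : x ≠ x') : ¬ c5_P X W K (x + x') := by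
  intro hz
  have e : Dir X W (x + x') = Dir X W x := by
    by_contra hc
    have h1 := c5_incP S hK hdim hx hz (Ne.symm hc)
    have hT : Tri W x (x + x') x' :=
      c5_tri hK hx.1 hz.1 hx'.1 hx.2.1 hz.2.1 hx'.2.1
        (by rw [show x + (x + x') + x' = (x + x') + (x + x') by abel]; exact self_add _)
    exact (gamma_dim S hT h1.1 h1.2).2.2.2.2.1 h.le
  obtain ⟨hxK, hx0, y, hy, hy0, hxy⟩ := hx
  have hzy : c5_Inc X W (x + x') y := c5_congr hxy e.symm
  have h2 : x + x' + y ≠ 0 := c5_ne (c5_inc_ne hzy)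
  have h3 := c5_back S hK hxK hx0 hx'.1 hx'.2.1 hy hy0 h hxy h2
  have hT : Tri W y (x + x') (x + x' + y) :=
    c5_tri hK hy hz.1 (K.add_mem hz.1 hy) hy0 hz.2.1 h2
      (by rw [add_comm y]; exact self_add _)
  exact (gamma_dim S hT hzy.2 hzy.1).2.2.2.2.1 h3.ge

private theorem c5_shift {x x' y : V} (hx : c5_P X W K x) (hx' : c5_P X W K x')
    (h : Dir X W x = Dir X W x') (hne : x ≠ x') (hy : c5_P X W K y) :
    Dir X W (x + x' + y) = Dir X W y := by
  have hz := c5_notP S hK hdim hx hx' h hne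
  have hzne : ∀ y, c5_P X W K y → x + x' + y ≠ 0 := fun y hy h' => hz (by
    rw [c5_eq h']; exact hy)
  have key : ∀ y, c5_P X W K y → Dir X W y ≠ Dir X W x → Dir X W (x + x' + y) = Dir X W y :=
    fun y hy hyx => c5_back S hK hx.1 hx.2.1 hx'.1 hx'.2.1 hy.1 hy.2.1 h
      (c5_incP S hK hdim hx hy (Ne.symm hyx)) (hzne y hy)
  by_cases hyx : Dir X W y = Dir X W x
  · obtain ⟨hxK, hx0, y', hy', hy'0, hxy'⟩ := id hx
    have hPy' : c5_P X W K y' := ⟨hy', hy'0, x, hxK, hx0, c5_inc_symm hxy'⟩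
    have h1 := key y' hPy' (c5_inc_dne hxy').symm
    have hyy' : c5_Inc X W y y' := c5_congr hxy' hyx.symm
    have hT : Tri W y' y (y + y') :=
      c5_tri hK hy' hy.1 (K.add_mem hy.1 hy') hy'0 hy.2.1 (c5_ne (c5_inc_ne hyy'))
        (by rw [add_comm y' y]; exact self_add _)
    have g := (gamma_dim S hT hyy'.2 hyy'.1).2.2.2.2
    have hT1 : Tri W y' (y + y') y :=
      c5_tri hK hy' (K.add_mem hy.1 hy') hy.1 hy'0 (c5_ne (c5_inc_ne hyy')) hy.2.1
        (by rw [show y' + (y + y') + y = (y + y') + (y + y') by abel]; exact self_add _)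
    have hT2 : Tri W (x + x' + y') (y + y') (x + x' + y) :=
      c5_tri hK (K.add_mem (K.add_mem hxK hx'.1) hy') (K.add_mem hy.1 hy')
        (K.add_mem (K.add_mem hxK hx'.1) hy.1) (hzne y' hPy') (c5_ne (c5_inc_ne hyy'))
        (hzne y hy) (by
          rw [show x + x' + y' + (y + y') + (x + x' + y) =
            (x + x' + y + y') + (x + x' + y + y') by abel]
          exact self_add _)
    exact (gamma_third S hT1 hT2 h1.symm rfl g.1 g.2).symm
  · exact key y hy hyx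

end

private theorem c5_sub (Q : V → Prop) (h0 : Q 0) (hadd : ∀ x y, Q x → Q y → Q (x + y)) :
    ∃ N : Submodule (ZMod 2) V, ∀ z, z ∈ N ↔ Q z :=
  ⟨{ carrier := {z | Q z}
     zero_mem' := h0
     add_mem' := fun {x y} hx hy => hadd x y hx hy
     smul_mem' := by
      intro c x hx
      have hc : c = 0 ∨ c = 1 := by
        revert c; decide
      rcases hc with rfl | rfl
      · rw [zero_smul]; exact h0
      · rw [one_smul]; exact hx }, fun _ => Iff.rfl⟩

/-- pairwise comparable directions of dimension `a` or `a + 1`: at most two values -/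
private theorem c5_two [Finite V] (K : Submodule (ZMod 2) V) {a : ℕ}
    (hdim : ∀ x ∈ K, x ≠ 0 → finrank (ZMod 2) (Dir X W x) = a ∨
      finrank (ZMod 2) (Dir X W x) = a + 1)
    (hc : ∀ x ∈ K, x ≠ 0 → ∀ y ∈ K, y ≠ 0 → ¬ c5_Inc X W x y) :
    ∃ D0 D1 : Submodule (ZMod 2) V, D0 ≤ D1 ∧ D1 ≤ W ∧
      finrank (ZMod 2) D1 ≤ finrank (ZMod 2) D0 + 1 ∧
      (∀ x ∈ K, x ≠ 0 → Dir X W x = D0 ∨ Dir X W x = D1) := by
  have hcmp : ∀ x ∈ K, x ≠ 0 → ∀ y ∈ K, y ≠ 0 →
      finrank (ZMod 2) (Dir X W x) ≤ finrank (ZMod 2) (Dir X W y) →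
      Dir X W x ≤ Dir X W y := by
    intro x hx hx0 y hy hy0 hle
    by_contra h1
    have h2 := hc x hx hx0 y hy hy0
    have h3 : Dir X W y ≤ Dir X W x := by
      by_contra h3
      exact h2 ⟨h1, h3⟩
    exact h1 (Submodule.eq_of_le_of_finrank_le h3 hle).ge
  have heq : ∀ x ∈ K, x ≠ 0 → ∀ y ∈ K, y ≠ 0 →
      finrank (ZMod 2) (Dir X W x) = finrank (ZMod 2) (Dir X W y) →
      Dir X W x = Dir X W y := fun x hx hx0 y hy hy0 e =>
    le_antisymm (hcmp x hx hx0 y hy hy0 e.le) (hcmp y hy hy0 x hx hx0 e.ge)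
  by_cases hA : ∃ x ∈ K, x ≠ 0 ∧ finrank (ZMod 2) (Dir X W x) = a
  · obtain ⟨x, hx, hx0, hxa⟩ := hA
    by_cases hB : ∃ y ∈ K, y ≠ 0 ∧ finrank (ZMod 2) (Dir X W y) = a + 1
    · obtain ⟨y, hy, hy0, hya⟩ := hB
      refine ⟨Dir X W x, Dir X W y, hcmp x hx hx0 y hy hy0 (by omega), dir_le, by omega,
        fun z hz hz0 => ?_⟩
      rcases hdim z hz hz0 with h | h
      · exact Or.inl (heq z hz hz0 x hx hx0 (by omega))
      · exact Or.inr (heq z hz hz0 y hy hy0 (by omega))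
    · refine ⟨Dir X W x, Dir X W x, le_rfl, dir_le, by omega, fun z hz hz0 => Or.inl ?_⟩
      rcases hdim z hz hz0 with h | h
      · exact heq z hz hz0 x hx hx0 (by omega)
      · exact (hB ⟨z, hz, hz0, h⟩).elim
  · by_cases hB : ∃ y ∈ K, y ≠ 0 ∧ finrank (ZMod 2) (Dir X W y) = a + 1
    · obtain ⟨y, hy, hy0, hya⟩ := hB
      refine ⟨Dir X W y, Dir X W y, le_rfl, dir_le, by omega, fun z hz hz0 => Or.inl ?_⟩
      rcases hdim z hz hz0 with h | h
      · exact (hA ⟨z, hz, hz0, h⟩).elim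
      · exact heq z hz hz0 y hy hy0 (by omega)
    · refine ⟨⊥, ⊥, le_rfl, bot_le, by omega, fun z hz hz0 => ?_⟩
      rcases hdim z hz hz0 with h | h
      · exact (hA ⟨z, hz, hz0, h⟩).elim
      · exact (hB ⟨z, hz, hz0, h⟩).elim

/-- a subspace of `W` is the range of an endomorphism of `W` -/
private theorem c5_range (D : Submodule (ZMod 2) V) (hD : D ≤ W) :
    ∃ f : W →ₗ[ZMod 2] W, ∀ x : V, x ∈ D ↔ ∃ w : W, ((f w : W) : V) = x := by
  obtain ⟨g, hg⟩ := LinearMap.exists_extend (p := D.comap W.subtype)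
    (LinearMap.id : (D.comap W.subtype) →ₗ[ZMod 2] (D.comap W.subtype))
  refine ⟨(D.comap W.subtype).subtype ∘ₗ g, fun x => ⟨fun hx => ?_, ?_⟩⟩
  · refine ⟨⟨x, hD hx⟩, ?_⟩
    have h1 := LinearMap.congr_fun hg ⟨⟨x, hD hx⟩, hx⟩
    simp only [LinearMap.comp_apply, Submodule.subtype_apply, LinearMap.id_apply] at h1
    simp only [LinearMap.comp_apply, Submodule.subtype_apply]
    rw [h1]
  · rintro ⟨w, rfl⟩
    exact (g w).2

private theorem c5_count [Finite V] (S' N : Submodule (ZMod 2) V) (hN : N ≤ S')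
    (P : V → Prop) (F : V → Submodule (ZMod 2) V) (hF : ∀ x, F x ≤ W)
    (hS : ∀ x ∈ S', x ∈ N ∨ P x)
    (h : ∀ x ∈ S', ∀ y ∈ S', P x → P y → F x = F y → x + y ∈ N) :
    finrank (ZMod 2) S' ≤ finrank (ZMod 2) N + (finrank (ZMod 2) W ^ 2 + 1) := by
  classical
  choose E hE using fun x => c5_range (W := W) (F x) (hF x)
  have hEF : ∀ x y, E x = E y → F x = F y := by
    intro x y e
    ext z
    rw [hE x z, hE y z, e]
  set N' : Submodule (ZMod 2) S' := N.comap S'.subtype with hN'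
  set φ : (S' ⧸ N') → Option (W →ₗ[ZMod 2] W) := fun q =>
    if P (Quotient.out q : S') then some (E (Quotient.out q : S')) else none with hφ
  have hmk : ∀ q : S' ⧸ N', Submodule.Quotient.mk (Quotient.out q) = q := fun q =>
    Quotient.out_eq q
  have hinj : Function.Injective φ := by
    intro q q' hqq
    have key : ((Quotient.out q : S') : V) + ((Quotient.out q' : S') : V) ∈ N := by
      by_cases h1 : P (Quotient.out q : S') <;> by_cases h2 : P (Quotient.out q' : S')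
      · simp only [hφ, h1, h2, if_true, Option.some.injEq] at hqq
        exact h _ (Quotient.out q : S').2 _ (Quotient.out q' : S').2 h1 h2 (hEF _ _ hqq)
      · simp [hφ, h1, h2] at hqq
      · simp [hφ, h1, h2] at hqq
      · have h3 := (hS _ (Quotient.out q : S').2).resolve_right h1
        have h4 := (hS _ (Quotient.out q' : S').2).resolve_right h2
        exact N.add_mem h3 h4
    rw [← hmk q, ← hmk q', Submodule.Quotient.eq]
    show ((Quotient.out q - Quotient.out q' : S') : V) ∈ N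
    have h5 : ((Quotient.out q - Quotient.out q' : S') : V) =
        ((Quotient.out q : S') : V) + ((Quotient.out q' : S') : V) := by
      rw [Submodule.coe_sub, sub_eq_add_neg]
      congr 1
      exact (eq_neg_of_add_eq_zero_left (self_add _)).symm
    rw [h5]
    exact key
  have hfin : Finite (W →ₗ[ZMod 2] W) := Module.finite_of_finite (ZMod 2)
  have hc := Nat.card_le_card_of_injective φ hinj
  rw [Finite.card_option, Module.natCard_eq_pow_finrank (K := ZMod 2),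
    Module.natCard_eq_pow_finrank (K := ZMod 2) (V := W →ₗ[ZMod 2] W), Nat.card_zmod,
    Module.finrank_linearMap] at hc
  have h6 : 2 ^ (finrank (ZMod 2) W * finrank (ZMod 2) W) + 1 ≤
      2 ^ (finrank (ZMod 2) W * finrank (ZMod 2) W + 1) := by
    have := Nat.one_le_two_pow (n := finrank (ZMod 2) W * finrank (ZMod 2) W)
    rw [pow_succ]
    omega
  have h7 := (Nat.pow_le_pow_iff_right (by norm_num : 1 < 2)).1 (hc.trans h6)
  have h8 := Submodule.finrank_quotient_add_finrank N'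
  have h9 : finrank (ZMod 2) N' = finrank (ZMod 2) N :=
    (Submodule.comapSubtypeEquivOfLe hN).finrank_eq
  rw [sq]
  omega

/-- LAYER -/
theorem layer [Finite V] (S : Setup X W) (K : Submodule (ZMod 2) V)
    (hK : ∀ x ∈ K, x ∈ W → x = 0) (a : ℕ)
    (hdim : ∀ x ∈ K, x ≠ 0 → finrank (ZMod 2) (Dir X W x) = a ∨
      finrank (ZMod 2) (Dir X W x) = a + 1) :
    ∃ K' : Submodule (ZMod 2) V, K' ≤ K ∧ ∃ D0 D1 : Submodule (ZMod 2) V, D0 ≤ D1 ∧ D1 ≤ W ∧
      finrank (ZMod 2) D1 ≤ finrank (ZMod 2) D0 + 1 ∧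
      (∀ x ∈ K', x ≠ 0 → Dir X W x = D0 ∨ Dir X W x = D1) ∧
      finrank (ZMod 2) K ≤ 2 * finrank (ZMod 2) K' + finrank (ZMod 2) W ^ 2 + 1 := by
  classical
  set Q : V → Prop := fun z => z ∈ K ∧ ¬ c5_P X W K z ∧
    ∀ y, c5_P X W K y → Dir X W (z + y) = Dir X W y with hQ
  have hP0 : ¬ c5_P X W K 0 := fun h => h.2.1 rfl
  have hQ0 : Q 0 := ⟨K.zero_mem, hP0, fun y _ => by rw [zero_add]⟩
  have hQP : ∀ z y, Q z → c5_P X W K y → c5_P X W K (z + y) := by
    intro z y hz hy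
    refine c5_P_congr hy (K.add_mem hz.1 hy.1) ?_ (hz.2.2 y hy).symm
    intro h0
    rw [c5_eq h0] at hz
    exact hz.2.1 hy
  have hQQ : ∀ z z', Q z → Q z' → Q (z + z') := by
    intro z z' hz hz'
    refine ⟨K.add_mem hz.1 hz'.1, fun hc => ?_, fun y hy => ?_⟩
    · have h1 := hQP z _ hz hc
      rw [← add_assoc, self_add, zero_add] at h1
      exact hz'.2.1 h1
    · rw [add_assoc, hz.2.2 _ (hQP z' y hz' hy), hz'.2.2 y hy]
  obtain ⟨N, hN⟩ := c5_sub Q hQ0 hQQ
  obtain ⟨S', hS'⟩ := c5_sub (fun z => Q z ∨ c5_P X W K z) (Or.inl hQ0) (by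
    rintro x y (hx | hx) (hy | hy)
    · exact Or.inl (hQQ x y hx hy)
    · exact Or.inr (hQP x y hx hy)
    · rw [add_comm]
      exact Or.inr (hQP y x hy hx)
    · by_cases he : Dir X W x = Dir X W y
      · by_cases hxy : x = y
        · rw [hxy, self_add]
          exact Or.inl hQ0
        · exact Or.inl ⟨K.add_mem hx.1 hy.1, c5_notP S hK hdim hx hy he hxy,
            fun z hz => c5_shift S hK hdim hx hy he hxy hz⟩
      · exact Or.inr (c5_add_ne S hK hdim hx hy he))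
  have hNK : N ≤ K := fun z hz => ((hN z).1 hz).1
  have hNS : N ≤ S' := fun z hz => (hS' z).2 (Or.inl ((hN z).1 hz))
  have hSK : S' ≤ K := fun z hz => by
    rcases (hS' z).1 hz with h | h
    · exact h.1
    · exact h.1
  have hcount := c5_count (W := W) S' N hNS (c5_P X W K) (fun x => Dir X W x)
    (fun _ => dir_le) (fun x hx => by
      rcases (hS' x).1 hx with h | h
      · exact Or.inl ((hN x).2 h)
      · exact Or.inr h)
    (fun x _ y _ hx hy he => by
      by_cases hxy : x = y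
      · rw [hxy, self_add]
        exact N.zero_mem
      · exact (hN _).2 ⟨K.add_mem hx.1 hy.1, c5_notP S hK hdim hx hy he hxy,
            fun z hz => c5_shift S hK hdim hx hy he hxy hz⟩)
  obtain ⟨C0, hC0⟩ := S'.exists_isCompl
  have hsup : S' ⊔ C0 ⊓ K = K := by
    rw [← sup_inf_assoc_of_le C0 hSK, hC0.sup_eq_top, top_inf_eq]
  have hinf : S' ⊓ (C0 ⊓ K) = ⊥ := by
    rw [← inf_assoc, hC0.inf_eq_bot, bot_inf_eq]
  have hfr := Submodule.finrank_sup_add_finrank_inf_eq S' (C0 ⊓ K)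
  rw [hsup, hinf, finrank_bot, add_zero] at hfr
  have fin : ∀ K' : Submodule (ZMod 2) V, K' ≤ K → (∀ x ∈ K', ¬ c5_P X W K x) →
      finrank (ZMod 2) K ≤ 2 * finrank (ZMod 2) K' + finrank (ZMod 2) W ^ 2 + 1 →
      ∃ K' : Submodule (ZMod 2) V, K' ≤ K ∧ ∃ D0 D1 : Submodule (ZMod 2) V, D0 ≤ D1 ∧ D1 ≤ W ∧
      finrank (ZMod 2) D1 ≤ finrank (ZMod 2) D0 + 1 ∧
      (∀ x ∈ K', x ≠ 0 → Dir X W x = D0 ∨ Dir X W x = D1) ∧
      finrank (ZMod 2) K ≤ 2 * finrank (ZMod 2) K' + finrank (ZMod 2) W ^ 2 + 1 := by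
    intro K' hK' hP hf
    obtain ⟨D0, D1, h1, h2, h3, h4⟩ := c5_two (X := X) (W := W) K'
      (fun x hx hx0 => hdim x (hK' hx) hx0)
      (fun x hx hx0 y hy hy0 hi => hP x hx ⟨hK' hx, hx0, y, hK' hy, hy0, hi⟩)
    exact ⟨K', hK', D0, D1, h1, h2, h3, h4, hf⟩
  rcases le_total (finrank (ZMod 2) (C0 ⊓ K : Submodule (ZMod 2) V)) (finrank (ZMod 2) N)
    with h | h
  · exact fin N hNK (fun x hx => ((hN x).1 hx).2.1) (by omega)
  · refine fin (C0 ⊓ K) inf_le_right (fun x hx hP => ?_) (by omega)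
    have h1 : x ∈ S' ⊓ (C0 ⊓ K) := ⟨(hS' x).2 (Or.inr hP), hx⟩
    rw [hinf, Submodule.mem_bot] at h1
    exact hP.2.1 h1

end EHProj.Claw
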