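import Pool.Agent.Lib.MP_f4f4db_co.Claw.Rules

/-!
# Claw-free point sets: the two-valued lemma (C6)
-/

namespace EHProj.Claw

open Module

variable {V : Type} [AddCommGroup V] [Module (ZMod 2) V] {X : Set V} {W : Submodule (ZMod 2) V}

/-- elements of `K ⊔ W` outside `W` have one of the two directions -/
private theorem c6_dir {K D0 D1 : Submodule (ZMod 2) V}
    (hval : ∀ x ∈ K, x ≠ 0 → Dir X W x = D0 ∨ Dir X W x = D1) {v : V} (hv : v ∈ K ⊔ W)
    (hvW : v ∉ W) : Dir X W v = D0 ∨ Dir X W v = D1 := by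
  obtain ⟨x, hx, w, hw, rfl⟩ := Submodule.mem_sup.1 hv
  have hx0 : x ≠ 0 := by
    rintro rfl
    rw [zero_add] at hvW
    exact hvW hw
  rw [dir_shift hw]
  exact hval x hx hx0

private theorem c6_le {K D0 D1 : Submodule (ZMod 2) V} (h01 : D0 ≤ D1)
    (hval : ∀ x ∈ K, x ≠ 0 → Dir X W x = D0 ∨ Dir X W x = D1) {v : V} (hv : v ∈ K ⊔ W)
    (hvW : v ∉ W) : Dir X W v ≤ D1 := by
  rcases c6_dir hval hv hvW with h | h
  · rw [h]; exact h01
  · rw [h]

private theorem c6_add (S : Setup X W) {K D0 D1 : Submodule (ZMod 2) V} (h01 : D0 ≤ D1)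
    (h1 : D1 ≤ W) (hval : ∀ x ∈ K, x ≠ 0 → Dir X W x = D0 ∨ Dir X W x = D1) {v v' s s' : V}
    (hv : v ∈ K ⊔ W) (hv' : v' ∈ K ⊔ W) (hs : s ∈ X) (hs' : s' ∈ X) (hd : v + s ∈ D1)
    (hd' : v' + s' ∈ D1) : v + v' ∈ D1 ∨ ∃ r ∈ X, v + v' + r ∈ D1 := by
  have hsW : s ∉ W := fun h => S.white s h hs
  have hsW' : s' ∉ W := fun h => S.white s' h hs'
  have hWK : W ≤ K ⊔ W := le_sup_right
  have hsK : s ∈ K ⊔ W := cancel_left (hWK (h1 hd)) hv
  have hsK' : s' ∈ K ⊔ W := cancel_left (hWK (h1 hd')) hv'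
  by_cases hss : s + s' ∈ W
  · left
    have h2 := c6_le h01 hval hsK hsW (mem_dir S hs hs' hsW hss)
    have h3 := D1.add_mem (D1.add_mem hd hd') h2
    have e : v + s + (v' + s') + (s + s') = v + v' + ((s + s) + (s' + s')) := by abel
    rw [e, self_add, self_add, add_zero, add_zero] at h3
    exact h3
  · right
    obtain ⟨w, hw, hr⟩ := S.maxi _ hss
    refine ⟨s + s' + w, hr, ?_⟩
    have hrW : s + s' + w ∉ W := fun h => S.white _ h hr
    have hrK : s + s' + w ∈ K ⊔ W :=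
      Submodule.add_mem _ (Submodule.add_mem _ hsK hsK') (hWK hw)
    have e1 : s + s' + (s + s' + w) = w := add_add_cancel' _ _
    have hT : Tri W s s' (s + s' + w) := ⟨hsW, hsW', hrW, by rw [e1]; exact hw⟩
    have h2 : s + s' + (s + s' + w) ∈ D1 := by
      rcases triA S hT hs hs' hr with h | h | h
      · exact c6_le h01 hval hsK hsW h
      · exact c6_le h01 hval hsK' hsW' h
      · exact c6_le h01 hval hrK hrW h
    have h3 := D1.add_mem (D1.add_mem hd hd') h2
    have e : v + s + (v' + s') + (s + s' + (s + s' + w)) =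
        v + v' + (s + s' + w) + ((s + s) + (s' + s')) := by abel
    rw [e, self_add, self_add, add_zero, add_zero] at h3
    exact h3

/-- the space spanned by `D1` and the points of `X` in `K ⊔ W` -/
private def c6_N (S : Setup X W) {K D0 D1 : Submodule (ZMod 2) V} (h01 : D0 ≤ D1)
    (h1 : D1 ≤ W) (hval : ∀ x ∈ K, x ≠ 0 → Dir X W x = D0 ∨ Dir X W x = D1) :
    Submodule (ZMod 2) V where
  carrier := {v | v ∈ K ⊔ W ∧ (v ∈ D1 ∨ ∃ s ∈ X, v + s ∈ D1)}
  zero_mem' := ⟨Submodule.zero_mem _, Or.inl D1.zero_mem⟩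
  add_mem' := by
    rintro v v' ⟨hv, h⟩ ⟨hv', h'⟩
    refine ⟨Submodule.add_mem _ hv hv', ?_⟩
    rcases h with h | ⟨s, hs, hd⟩
    · rcases h' with h' | ⟨s', hs', hd'⟩
      · exact Or.inl (D1.add_mem h h')
      · right
        refine ⟨s', hs', ?_⟩
        rw [add_assoc]
        exact D1.add_mem h hd'
    · rcases h' with h' | ⟨s', hs', hd'⟩
      · right
        refine ⟨s, hs, ?_⟩
        have e : v + v' + s = v + s + v' := by abel
        rw [e]
        exact D1.add_mem hd h'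
      · exact c6_add S h01 h1 hval hv hv' hs hs' hd hd'
  smul_mem' := by
    rintro c v ⟨hv, h⟩
    have hc : c = 0 ∨ c = 1 := by
      revert c; decide
    rcases hc with rfl | rfl
    · rw [zero_smul]
      exact ⟨Submodule.zero_mem _, Or.inl D1.zero_mem⟩
    · rw [one_smul]
      exact ⟨hv, h⟩

/-- a white element outside `W` has direction `D0`, and `v + z` is black -/
private theorem c6_white {K D0 D1 : Submodule (ZMod 2) V} (h1 : D1 ≤ W)
    (hval : ∀ x ∈ K, x ≠ 0 → Dir X W x = D0 ∨ Dir X W x = D1) (S : Setup X W) {v : V}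
    (hv : v ∈ K ⊔ W) (hN : v ∈ D1 ∨ ∃ s ∈ X, v + s ∈ D1) (hX : v ∉ X) (hvD : v ∉ D1) :
    Dir X W v = D0 ∧ D0 ≠ D1 ∧ ∀ z ∈ D1, z ∉ D0 → D1 ≤ D0 ⊔ Submodule.span (ZMod 2) {z} →
      v + z ∈ X := by
  obtain ⟨s, hs, hd⟩ := hN.resolve_left hvD
  have hsW : s ∉ W := fun h => S.white s h hs
  have hWK : W ≤ K ⊔ W := le_sup_right
  have hsK : s ∈ K ⊔ W := cancel_left (hWK (h1 hd)) hv
  have hdir : Dir X W v = Dir X W s := dir_congr (h1 hd)
  have hn : v + s ∉ Dir X W s := by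
    intro h
    have h2 := add_mem_of_dir hs h
    have e : s + (v + s) = v := by rw [add_comm v s, add_add_cancel']
    rw [e] at h2
    exact hX h2
  have hD : Dir X W s = D0 := by
    rcases c6_dir hval hsK hsW with h | h
    · exact h
    · rw [h] at hn
      exact absurd hd hn
  rw [hD] at hn
  refine ⟨hdir.trans hD, fun h => hn (h ▸ hd), fun z _ _ hz => ?_⟩
  have h3 : v + s + z ∈ D0 := (mem_sup_span (hz hd)).resolve_left hn
  rw [← hD] at h3
  have h4 := add_mem_of_dir hs h3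
  have e : s + (v + s + z) = v + z + (s + s) := by abel
  rw [e, self_add, add_zero] at h4
  exact h4

theorem two_valued [Finite V] (S : Setup X W) (K : Submodule (ZMod 2) V)
    (hK : ∀ x ∈ K, x ∈ W → x = 0) (D0 D1 : Submodule (ZMod 2) V) (h01 : D0 ≤ D1) (h1 : D1 ≤ W)
    (hd : finrank (ZMod 2) D1 ≤ finrank (ZMod 2) D0 + 1)
    (hval : ∀ x ∈ K, x ≠ 0 → Dir X W x = D0 ∨ Dir X W x = D1) :
    ∃ Y : Submodule (ZMod 2) V, Y ≤ K ⊔ W ∧ finrank (ZMod 2) K ≤ finrank (ZMod 2) Y ∧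
      ∀ a ∈ Y, ∀ b ∈ Y, a ≠ 0 → b ≠ 0 → a ≠ b → (a ∈ X ∨ b ∈ X ∨ a + b ∈ X) := by
  set N := c6_N S h01 h1 hval with hN
  have hmem : ∀ v, v ∈ N ↔ v ∈ K ⊔ W ∧ (v ∈ D1 ∨ ∃ s ∈ X, v + s ∈ D1) := fun v => Iff.rfl
  have hWK : W ≤ K ⊔ W := le_sup_right
  have hNK : N ≤ K ⊔ W := fun v hv => ((hmem v).1 hv).1
  have hDN : D1 ≤ N := fun v hv => (hmem v).2 ⟨hWK (h1 hv), Or.inl hv⟩
  have hsup : N ⊔ W = K ⊔ W := by
    refine le_antisymm (sup_le hNK hWK) (sup_le ?_ le_sup_right)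
    intro x hx
    by_cases hxW : x ∈ W
    · exact Submodule.mem_sup_right hxW
    obtain ⟨w, hw, hxw⟩ := S.maxi x hxW
    have h2 : x + w ∈ N := (hmem _).2 ⟨Submodule.add_mem _ (Submodule.mem_sup_left hx) (hWK hw),
      Or.inr ⟨x + w, hxw, by rw [self_add]; exact D1.zero_mem⟩⟩
    have e : x = x + w + w := by rw [add_assoc, self_add, add_zero]
    rw [e]
    exact Submodule.add_mem _ (Submodule.mem_sup_left h2) (Submodule.mem_sup_right hw)
  have hinf : N ⊓ W = D1 := by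
    refine le_antisymm ?_ (le_inf hDN h1)
    rintro v ⟨hv, hvW⟩
    rcases ((hmem v).1 hv).2 with h | ⟨s, hs, h⟩
    · exact h
    · exact absurd hs (S.white s (cancel_left (h1 h) hvW))
  have hKW : K ⊓ W = ⊥ := by
    rw [eq_bot_iff]
    rintro x ⟨hx, hxW⟩
    exact hK x hx hxW
  have f1 := Submodule.finrank_sup_add_finrank_inf_eq N W
  have f2 := Submodule.finrank_sup_add_finrank_inf_eq K W
  rw [hsup, hinf] at f1
  rw [hKW, finrank_bot, add_zero] at f2
  obtain ⟨Y, hYN, hYinf, -, hYf⟩ := exists_compl (p := 2) (h01.trans hDN)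
  have f3 : finrank (ZMod 2) D0 ≤ finrank (ZMod 2) D1 := Submodule.finrank_mono h01
  refine ⟨Y, hYN.trans hNK, by omega, ?_⟩
  have hY0 : ∀ v ∈ Y, v ∈ D0 → v = 0 := by
    intro v hv hv0
    have : v ∈ Y ⊓ D0 := ⟨hv, hv0⟩
    rwa [hYinf, Submodule.mem_bot] at this
  have hW : ∀ v ∈ Y, v ∉ X → v ∉ D1 → Dir X W v = D0 ∧ D0 ≠ D1 ∧
      ∀ z ∈ D1, z ∉ D0 → D1 ≤ D0 ⊔ Submodule.span (ZMod 2) {z} → v + z ∈ X := by
    intro v hv hX hvD
    have h2 := (hmem v).1 (hYN hv)
    exact c6_white h1 hval S h2.1 h2.2 hX hvD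
  intro a ha b hb ha0 hb0 hab
  by_contra hcon
  push Not at hcon
  obtain ⟨haX, hbX, habX⟩ := hcon
  have hY : a + b ∈ Y := Y.add_mem ha hb
  have hab0 : a + b ≠ 0 := by
    intro h
    apply hab
    have h2 : a + b + b = b := by rw [h, zero_add]
    rwa [add_assoc, self_add, add_zero] at h2
  have hne : ¬ D1 ≤ D0 := by
    intro hle
    have haD : a ∉ D1 := fun h => ha0 (hY0 a ha (hle h))
    exact (hW a ha haX haD).2.1 (le_antisymm h01 hle)
  obtain ⟨z, hz1, hz0⟩ := Set.not_subset.1 hne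
  have hz1 : z ∈ D1 := hz1
  have hz0 : z ∉ D0 := hz0
  have hspan : D1 ≤ D0 ⊔ Submodule.span (ZMod 2) {z} := by
    have h2 : D0 ⊔ Submodule.span (ZMod 2) {z} ≤ D1 := sup_span_le h01 hz1
    have h3 := finrank_sup_span hz0
    exact (Submodule.eq_of_le_of_finrank_le h2 (by omega)).ge
  have hin : ∀ p ∈ D1, p ∉ D0 → p + z ∈ D0 := fun p hp hp0 =>
    (mem_sup_span (hspan hp)).resolve_left hp0
  have key : ∀ p ∈ Y, ∀ q ∈ Y, p ≠ 0 → p ∈ D1 → q ∉ D1 → q ∉ X → q + p ∉ X → False := by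
    intro p hp q hq hp0 hpD hqD hqX hqpX
    have h2 := hin p hpD (fun h => hp0 (hY0 p hp h))
    obtain ⟨h3, -, h4⟩ := hW q hq hqX hqD
    have h5 := h4 z hz1 hz0 hspan
    have h6 : p + z ∈ Dir X W (q + z) := by
      rw [dir_shift (h1 hz1), h3]
      exact h2
    have h7 := add_mem_of_dir h5 h6
    have e : q + z + (p + z) = q + p + (z + z) := by abel
    rw [e, self_add, add_zero] at h7
    exact hqpX h7
  by_cases haD : a ∈ D1
  · by_cases hbD : b ∈ D1
    · have h2 := hin a haD (fun h => ha0 (hY0 a ha h))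
      have h3 := hin b hbD (fun h => hb0 (hY0 b hb h))
      have h4 := D0.add_mem h2 h3
      have e : a + z + (b + z) = a + b + (z + z) := by abel
      rw [e, self_add, add_zero] at h4
      exact hab0 (hY0 _ hY h4)
    · exact key a ha b hb ha0 haD hbD hbX (by rw [add_comm]; exact habX)
  · by_cases hbD : b ∈ D1
    · exact key b hb a ha hb0 hbD haD haX habX
    · by_cases hcD : a + b ∈ D1
      · exact key (a + b) hY a ha hab0 hcD haD haX (by rw [add_add_cancel']; exact hbX)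
      · obtain ⟨da, -, xa⟩ := hW a ha haX haD
        obtain ⟨db, -, xb⟩ := hW b hb hbX hbD
        obtain ⟨dc, -, xc⟩ := hW (a + b) hY habX hcD
        have xa := xa z hz1 hz0 hspan
        have xb := xb z hz1 hz0 hspan
        have xc := xc z hz1 hz0 hspan
        have e : a + z + (b + z) + (a + b + z) = z := by
          have : a + z + (b + z) + (a + b + z) = z + ((a + a) + (b + b) + (z + z)) := by abel
          rw [this]
          simp only [self_add, add_zero]
        have hT : Tri W (a + z) (b + z) (a + b + z) :=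
          ⟨fun h => S.white _ h xa, fun h => S.white _ h xb, fun h => S.white _ h xc,
            by rw [e]; exact h1 hz1⟩
        have h2 := triA S hT xa xb xc
        rw [e, dir_shift (h1 hz1), dir_shift (h1 hz1), dir_shift (h1 hz1), da, db, dc] at h2
        rcases h2 with h | h | h <;> exact hz0 h

end EHProj.Claw
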