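import Pool.Agent.Lib.MP_f4f4db_co.Claw.C4
import Pool.Agent.Lib.MP_f4f4db_co.Claw.C5
import Pool.Agent.Lib.MP_f4f4db_co.Claw.C6

namespace EHProj.Claw

open Module

variable {V : Type} [AddCommGroup V] [Module (ZMod 2) V] {X : Set V} {W : Submodule (ZMod 2) V}

private theorem c7_real (b t : ℕ) :
    2 * ((b : ℝ) + 1) ^ 5 + 64 * (t : ℝ) ^ 5 ≤ 64 * ((t + b : ℕ) : ℝ) ^ 5 + 64 := by
  have hb : (0 : ℝ) ≤ b := Nat.cast_nonneg b
  have ht : (0 : ℝ) ≤ t := Nat.cast_nonneg t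
  have h1 : (t : ℝ) ^ 5 + (b : ℝ) ^ 5 ≤ ((t + b : ℕ) : ℝ) ^ 5 := by
    push_cast
    have : ((t : ℝ) + b) ^ 5 = (t : ℝ) ^ 5 + (b : ℝ) ^ 5 + (5 * t ^ 4 * b + 10 * t ^ 3 * b ^ 2 +
      10 * t ^ 2 * b ^ 3 + 5 * t * b ^ 4) := by ring
    rw [this]
    have : (0 : ℝ) ≤ 5 * t ^ 4 * b + 10 * t ^ 3 * b ^ 2 + 10 * t ^ 2 * b ^ 3 + 5 * t * b ^ 4 := by
      positivity
    linarith
  have h2 : ((b : ℝ) + 1) ^ 5 ≤ 32 * (b : ℝ) ^ 5 + 32 := by
    rcases Nat.eq_zero_or_pos b with rfl | hb1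
    · norm_num
    · have hb1' : (1 : ℝ) ≤ b := by exact_mod_cast hb1
      have h3 : ((b : ℝ) + 1) ^ 5 ≤ (2 * b) ^ 5 := by
        gcongr
        linarith
      have h4 : (2 * (b : ℝ)) ^ 5 = 32 * (b : ℝ) ^ 5 := by ring
      linarith
  linarith

private theorem c7_final (A : ℝ) (hA : 1 ≤ A) (m w t0 t1 t2 : ℕ) (hw : w < m) (h0 : t0 < m)
    (h1 : t1 < m) (h2 : t2 < m) (N : ℝ)
    (hN : N ≤ (w : ℝ) + 64 * A * ((t0 : ℝ) ^ 5 + (t1 : ℝ) ^ 5 + (t2 : ℝ) ^ 5) +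
      ((w + 1 : ℕ) : ℝ) * (64 * A + (w : ℝ) ^ 2 + 1)) : N ≤ 300 * A * (m : ℝ) ^ 5 := by
  have hm1 : (1 : ℝ) ≤ m := by exact_mod_cast (by omega : 1 ≤ m)
  have hwm : (w : ℝ) + 1 ≤ m := by exact_mod_cast hw
  have hw0 : (0 : ℝ) ≤ w := Nat.cast_nonneg w
  have e : ∀ t : ℕ, t < m → (t : ℝ) ^ 5 ≤ (m : ℝ) ^ 5 := by
    intro t ht
    have : (t : ℝ) ≤ m := by exact_mod_cast ht.le
    gcongr
  have e0 := e t0 h0
  have e1 := e t1 h1
  have e2 := e t2 h2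
  have hm5 : (m : ℝ) ≤ (m : ℝ) ^ 5 := le_self_pow₀ hm1 (by norm_num)
  have hm3 : (m : ℝ) * (m : ℝ) ^ 2 ≤ (m : ℝ) ^ 5 := by
    have : (m : ℝ) * (m : ℝ) ^ 2 = (m : ℝ) ^ 3 := by ring
    rw [this]
    exact pow_le_pow_right₀ hm1 (by norm_num)
  have hm50 : (0 : ℝ) ≤ (m : ℝ) ^ 5 := by positivity
  have hsq : (w : ℝ) ^ 2 + 1 ≤ (m : ℝ) ^ 2 := by nlinarith
  have h3 : ((w + 1 : ℕ) : ℝ) * (64 * A + (w : ℝ) ^ 2 + 1) ≤ (m : ℝ) * (64 * A + (m : ℝ) ^ 2) := by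
    push_cast
    have : 64 * A + (w : ℝ) ^ 2 + 1 ≤ 64 * A + (m : ℝ) ^ 2 := by linarith
    have h4 : (0 : ℝ) ≤ 64 * A + (w : ℝ) ^ 2 + 1 := by positivity
    calc ((w : ℝ) + 1) * (64 * A + (w : ℝ) ^ 2 + 1) ≤ (m : ℝ) * (64 * A + (w : ℝ) ^ 2 + 1) := by
          gcongr
      _ ≤ _ := by gcongr
  have h4 : (m : ℝ) * (64 * A + (m : ℝ) ^ 2) ≤ 64 * A * (m : ℝ) ^ 5 + (m : ℝ) ^ 5 := by
    have : (m : ℝ) * (64 * A + (m : ℝ) ^ 2) = 64 * A * m + m * (m : ℝ) ^ 2 := by ring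
    rw [this]
    have : 64 * A * (m : ℝ) ≤ 64 * A * (m : ℝ) ^ 5 := by gcongr
    linarith
  have h5 : 64 * A * ((t0 : ℝ) ^ 5 + (t1 : ℝ) ^ 5 + (t2 : ℝ) ^ 5) ≤ 64 * A * (3 * (m : ℝ) ^ 5) := by
    gcongr
    linarith
  have h6 : (m : ℝ) ^ 5 ≤ A * (m : ℝ) ^ 5 := by nlinarith
  nlinarith

/-- black elements: nonzero elements of a black subspace are outside W -/
private theorem c7_notMem (S : Setup X W) {B : Submodule (ZMod 2) V}
    (hB : ∀ x ∈ B, x ≠ 0 → x ∈ X) {b : V} (hb : b ∈ B) (hb0 : b ≠ 0) : b ∉ W :=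
  fun h => S.white b h (hB b hb hb0)

private theorem c7_dir_le [Finite V] (v : V) :
    finrank (ZMod 2) (Dir X W v) ≤ finrank (ZMod 2) W :=
  Submodule.finrank_mono dir_le

/-- the sum of a black subspace of large codimension and one of small codimension is black -/
private theorem c7_sup [Finite V] (S : Setup X W) (i : ℕ) (T B : Submodule (ZMod 2) V)
    (hT : ∀ x ∈ T, x ≠ 0 → x ∈ X) (hB : ∀ x ∈ B, x ≠ 0 → x ∈ X)
    (hTc : ∀ x ∈ T, x ≠ 0 → i + 2 ≤ cod X W x) (hBc : ∀ x ∈ B, x ≠ 0 → cod X W x ≤ i) :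
    (∀ x ∈ T ⊔ B, x ≠ 0 → x ∈ X) ∧
      finrank (ZMod 2) (T ⊔ B : Submodule (ZMod 2) V) = finrank (ZMod 2) T +
        finrank (ZMod 2) B := by
  have hdim : ∀ t ∈ T, t ≠ 0 → ∀ b ∈ B, b ≠ 0 →
      finrank (ZMod 2) (Dir X W t) + 2 ≤ finrank (ZMod 2) (Dir X W b) := by
    intro t ht ht0 b hb hb0
    have h1 := hTc t ht ht0
    have h2 := hBc b hb hb0
    have h3 := c7_dir_le (X := X) (W := W) t
    have h4 := c7_dir_le (X := X) (W := W) b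
    unfold cod at h1 h2
    omega
  constructor
  · intro x hx hx0
    obtain ⟨t, ht, b, hb, rfl⟩ := Submodule.mem_sup.1 hx
    by_cases ht0 : t = 0
    · subst ht0
      rw [zero_add] at hx0 ⊢
      exact hB b hb hx0
    by_cases hb0 : b = 0
    · subst hb0
      rw [add_zero]
      exact hT t ht ht0
    have hd := hdim t ht ht0 b hb hb0
    have htri : Tri W b t (b + t) := by
      refine ⟨c7_notMem S hB hb hb0, c7_notMem S hT ht ht0, ?_, ?_⟩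
      · intro hmem
        have := dir_congr (X := X) hmem
        rw [this] at hd
        omega
      · rw [self_add]
        exact W.zero_mem
    have := (gap S htri hd).2 (hB b hb hb0) (hT t ht ht0)
    rw [add_comm]
    exact this
  · have hinf : T ⊓ B = ⊥ := by
      rw [eq_bot_iff]
      rintro x ⟨hxT, hxB⟩
      rw [Submodule.mem_bot]
      by_contra hx0
      have := hdim x hxT hx0 x hxB hx0
      omega
    have := Submodule.finrank_sup_add_finrank_inf_eq T B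
    rw [hinf, finrank_bot, add_zero] at this
    exact this

/-- the induction -/
private theorem c7_ind [Finite V] (S : Setup X W) (A : ℝ) (hA : 1 ≤ A)
    (hR : ∀ Y : Submodule (ZMod 2) V,
      (∀ a ∈ Y, ∀ b ∈ Y, a ≠ 0 → b ≠ 0 → a ≠ b → (a ∈ X ∨ b ∈ X ∨ a + b ∈ X)) →
      ∃ B : Submodule (ZMod 2) V, B ≤ Y ∧ (∀ x ∈ B, x ≠ 0 → x ∈ X) ∧
        (finrank (ZMod 2) Y : ℝ) ≤ A * ((finrank (ZMod 2) B : ℝ) + 1) ^ 5) (k : ℕ) :
    ∀ i : ℕ, i + k = finrank (ZMod 2) W + 1 →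
      ∃ T0 T1 T2 : Submodule (ZMod 2) V, T0 ≤ Gj X W i ∧ T1 ≤ Gj X W (i + 1) ∧
        T2 ≤ Gj X W (i + 2) ∧ (∀ x ∈ T0, x ≠ 0 → x ∈ X) ∧ (∀ x ∈ T1, x ≠ 0 → x ∈ X) ∧
        (∀ x ∈ T2, x ≠ 0 → x ∈ X) ∧
        (finrank (ZMod 2) (Gj X W i) : ℝ) ≤ (finrank (ZMod 2) W : ℝ) +
          64 * A * ((finrank (ZMod 2) T0 : ℝ) ^ 5 + (finrank (ZMod 2) T1 : ℝ) ^ 5 +
            (finrank (ZMod 2) T2 : ℝ) ^ 5) +
          (k : ℝ) * (64 * A + (finrank (ZMod 2) W : ℝ) ^ 2 + 1) := by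
  induction k with
  | zero =>
    intro i hi
    have hG : Gj X W i = W := gj_top (by omega)
    refine ⟨⊥, ⊥, ⊥, bot_le, bot_le, bot_le, ?_, ?_, ?_, ?_⟩
    · intro x hx hx0; exact absurd ((Submodule.mem_bot _).1 hx) hx0
    · intro x hx hx0; exact absurd ((Submodule.mem_bot _).1 hx) hx0
    · intro x hx hx0; exact absurd ((Submodule.mem_bot _).1 hx) hx0
    · rw [hG, finrank_bot]
      norm_num
  | succ k ih =>
    intro i hi
    obtain ⟨T0, T1, T2, hT0, hT1, hT2, hX0, hX1, hX2, hdim⟩ := ih (i + 1) (by omega)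
    obtain ⟨K, hKG, hKinf, -, hKdim⟩ := exists_compl (gj_anti (X := X) (W := W) (Nat.le_succ i))
    have hKW : ∀ x ∈ K, x ∈ W → x = 0 := by
      intro x hx hxW
      have : x ∈ K ⊓ Gj X W (i + 1) := ⟨hx, le_gj (i + 1) hxW⟩
      rw [hKinf] at this
      exact (Submodule.mem_bot _).1 this
    have hcodK : ∀ x ∈ K, x ≠ 0 → cod X W x ≤ i := by
      intro x hx hx0
      apply not_gj
      intro hmem
      have : x ∈ K ⊓ Gj X W (i + 1) := ⟨hx, hmem⟩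
      rw [hKinf] at this
      exact hx0 ((Submodule.mem_bot _).1 this)
    obtain ⟨K', hK'K, D0, D1, h01, hD1, hdd, hval, hKd⟩ := layer S K hKW
      (finrank (ZMod 2) W - i) (by
        intro x hx hx0
        have h1 := hcodK x hx hx0
        have h2 := gj_cod S (hKG hx) (fun hW => hx0 (hKW x hx hW))
        have h3 := c7_dir_le (X := X) (W := W) x
        unfold cod at h1 h2
        omega)
    obtain ⟨Y, hYle, hYd, hYw⟩ := two_valued S K' (fun x hx hW => hKW x (hK'K hx) hW) D0 D1 h01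
      hD1 hdd hval
    obtain ⟨B, hBY, hBX, hBd⟩ := hR Y hYw
    have hBG : B ≤ Gj X W i := (hBY.trans hYle).trans (sup_le (hK'K.trans hKG) (le_gj i))
    have hBc : ∀ x ∈ B, x ≠ 0 → cod X W x ≤ i := by
      intro x hx hx0
      obtain ⟨y, hy, z, hz, rfl⟩ := Submodule.mem_sup.1 (hYle (hBY hx))
      have hy0 : y ≠ 0 := by
        rintro rfl
        rw [zero_add] at hx hx0
        exact c7_notMem S hBX hx hx0 hz
      have hc := hcodK y (hK'K hy) hy0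
      have hD : Dir X W (y + z) = Dir X W y := by
        apply dir_congr
        have : y + z + y = z := by
          rw [add_comm y z, add_assoc, self_add, add_zero]
        rw [this]
        exact hz
      unfold cod at hc ⊢
      rw [hD]
      exact hc
    have hTc : ∀ x ∈ T2, x ≠ 0 → i + 2 ≤ cod X W x := by
      intro x hx hx0
      have := gj_cod S (hT2 hx) (c7_notMem S hX2 hx hx0)
      omega
    obtain ⟨hTB, hTBd⟩ := c7_sup S i T2 B hX2 hBX hTc hBc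
    refine ⟨T2 ⊔ B, T0, T1, ?_, hT0, hT1, hTB, hX0, hX1, ?_⟩
    · exact sup_le (hT2.trans (gj_anti (by omega))) hBG
    · rw [hKdim, hTBd]
      push_cast
      have h1 : (finrank (ZMod 2) K : ℝ) ≤ 2 * (finrank (ZMod 2) K' : ℝ) +
          (finrank (ZMod 2) W : ℝ) ^ 2 + 1 := by exact_mod_cast hKd
      have h2 : (finrank (ZMod 2) K' : ℝ) ≤ (finrank (ZMod 2) Y : ℝ) := by exact_mod_cast hYd
      have h3 := c7_real (finrank (ZMod 2) B) (finrank (ZMod 2) T2)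
      push_cast at h3
      have h4 : 2 * (A * ((finrank (ZMod 2) B : ℝ) + 1) ^ 5) +
          64 * A * (finrank (ZMod 2) T2 : ℝ) ^ 5 ≤
          64 * A * ((finrank (ZMod 2) T2 : ℝ) + (finrank (ZMod 2) B : ℝ)) ^ 5 + 64 * A := by
        have := mul_le_mul_of_nonneg_left h3 (by linarith : (0 : ℝ) ≤ A)
        linarith
      linarith

/-- the assembly: the dimension of a claw-free set without large homogeneous subspaces -/
theorem assemble [Finite V] (S : Setup X W) (m : ℕ)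
    (hm : ∀ B : Submodule (ZMod 2) V, (∀ x ∈ B, x ≠ 0 → x ∈ X) → finrank (ZMod 2) B < m)
    (hw : finrank (ZMod 2) W < m) (A : ℝ) (hA : 1 ≤ A)
    (hR : ∀ Y : Submodule (ZMod 2) V,
      (∀ a ∈ Y, ∀ b ∈ Y, a ≠ 0 → b ≠ 0 → a ≠ b → (a ∈ X ∨ b ∈ X ∨ a + b ∈ X)) →
      ∃ B : Submodule (ZMod 2) V, B ≤ Y ∧ (∀ x ∈ B, x ≠ 0 → x ∈ X) ∧
        (finrank (ZMod 2) Y : ℝ) ≤ A * ((finrank (ZMod 2) B : ℝ) + 1) ^ 5) :
    (finrank (ZMod 2) V : ℝ) ≤ 300 * A * (m : ℝ) ^ 5 := by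
  obtain ⟨T0, T1, T2, -, -, -, hX0, hX1, hX2, hdim⟩ := c7_ind S A hA hR
    (finrank (ZMod 2) W + 1) 0 (by omega)
  rw [gj_zero, finrank_top] at hdim
  exact c7_final A hA m (finrank (ZMod 2) W) _ _ _ hw (hm T0 hX0) (hm T1 hX1) (hm T2 hX2) _ hdim

end EHProj.Claw
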