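import Pool.Agent.Lib.MP_f4f4db_co.Avoid

/-!
# Claw-free point sets over the field with two elements: definitions

`X` is claw-free: no three independent points of `X` span a plane without a further point of `X`.
`W` is a maximal white subspace. For `v ∉ W` the set `X ∩ (v + W)` is a nonempty affine space with
direction `Dir X W v`.
-/

namespace EHProj.Claw

open Module

variable {V : Type} [AddCommGroup V] [Module (ZMod 2) V]

/-- no three independent points of `X` span a plane without further points of `X` -/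
def ClawFree (X : Set V) : Prop := ∀ x ∈ X, ∀ y ∈ X, ∀ z ∈ X, Ind3 x y z →
  x + y ∈ X ∨ x + z ∈ X ∨ y + z ∈ X ∨ x + y + z ∈ X

/-- `W` is a maximal white subspace -/
structure Setup (X : Set V) (W : Submodule (ZMod 2) V) : Prop where
  claw : ClawFree X
  white : ∀ w ∈ W, w ∉ X
  maxi : ∀ v, v ∉ W → ∃ w ∈ W, v + w ∈ X

/-- the directions of `X ∩ (v + W)` -/
def Dir (X : Set V) (W : Submodule (ZMod 2) V) (v : V) : Submodule (ZMod 2) V where
  carrier := {d | d ∈ W ∧ ∀ w ∈ W, v + w ∈ X → v + w + d ∈ X}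
  zero_mem' := ⟨W.zero_mem, fun w _ h => by rwa [add_zero]⟩
  add_mem' := by
    rintro a b ⟨ha, ha'⟩ ⟨hb, hb'⟩
    refine ⟨W.add_mem ha hb, fun w hw h => ?_⟩
    have h1 := ha' w hw h
    rw [add_assoc v w a] at h1
    have h2 := hb' (w + a) (W.add_mem hw ha) h1
    rwa [← add_assoc v w a, add_assoc (v + w) a b] at h2
  smul_mem' := by
    rintro c a ⟨ha, ha'⟩
    refine ⟨W.smul_mem c ha, fun w hw h => ?_⟩
    have hc : c = 0 ∨ c = 1 := by
      revert c; decide
    rcases hc with rfl | rfl
    · rwa [zero_smul, add_zero]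
    · rw [one_smul]; exact ha' w hw h

/-- `p, q, r` are outside `W` and have sum zero modulo `W` -/
def Tri (W : Submodule (ZMod 2) V) (p q r : V) : Prop := p ∉ W ∧ q ∉ W ∧ r ∉ W ∧ p + q + r ∈ W

/-- the codimension of `Dir X W v` in `W` -/
noncomputable def cod (X : Set V) (W : Submodule (ZMod 2) V) (v : V) : ℕ :=
  finrank (ZMod 2) W - finrank (ZMod 2) (Dir X W v)

/-- `W` together with the span of all `v` with `cod v ≥ j` -/
def Gj (X : Set V) (W : Submodule (ZMod 2) V) (j : ℕ) : Submodule (ZMod 2) V :=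
  W ⊔ Submodule.span (ZMod 2) {v | v ∉ W ∧ j ≤ cod X W v}

end EHProj.Claw
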