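import Pool.Agent.Lib.MP_f4f4db_co.Exp5
import Pool.Agent.Lib.MP_f4f4db_co.Claw.Defs

/-! # The Ramsey input for claw-free point sets -/

set_option autoImplicit false

namespace EHProj.Exp5

open Module

/-- a black subspace of dimension `k` in `Y` if `C k ^ 5 log (1 + k) ^ 2 ≤ dim Y` -/
private theorem c8a_black (C : ℝ)
    (hs : ∀ m n : ℕ, 1 ≤ m → C * (m : ℝ) ^ 5 * Real.log (1 + m) ^ 2 ≤ n →
      ∀ X : Set (Fin n → ZMod 2), (0 : Fin n → ZMod 2) ∉ X → ¬ HasWhite (p := 2) X ⊤ m →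
      ∃ a ∈ X, ∃ b ∈ X, a ≠ b ∧ a + b ∈ X)
    (V : Type) [AddCommGroup V] [Module (ZMod 2) V] [Finite V] (X : Set V)
    (Y : Submodule (ZMod 2) V)
    (hY : ∀ a ∈ Y, ∀ b ∈ Y, a ≠ 0 → b ≠ 0 → a ≠ b → (a ∈ X ∨ b ∈ X ∨ a + b ∈ X))
    (k : ℕ) (hk : 1 ≤ k)
    (hkd : C * (k : ℝ) ^ 5 * Real.log (1 + k) ^ 2 ≤ (finrank (ZMod 2) Y : ℕ)) :
    ∃ B : Submodule (ZMod 2) V, B ≤ Y ∧ (∀ x ∈ B, x ≠ 0 → x ∈ X) ∧ finrank (ZMod 2) B = k := by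
  classical
  let b := Module.finBasis (ZMod 2) Y
  let e : Y ≃ₗ[ZMod 2] (Fin (finrank (ZMod 2) Y) → ZMod 2) := b.equivFun
  set X' : Set (Fin (finrank (ZMod 2) Y) → ZMod 2) :=
    {v | v ≠ 0 ∧ ((e.symm v : Y) : V) ∉ X} with hX'
  have hne : ∀ v : Fin (finrank (ZMod 2) Y) → ZMod 2, v ≠ 0 → ((e.symm v : Y) : V) ≠ 0 := by
    intro v hv h
    apply hv
    have h1 : (e.symm v : Y) = 0 := Subtype.ext h
    exact e.symm.map_eq_zero_iff.1 h1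
  have hW : HasWhite (p := 2) X' ⊤ k := by
    by_contra hcon
    obtain ⟨a, ha, c, hc, hac, hac'⟩ := hs k _ hk hkd X' (fun h => h.1 rfl) hcon
    have h1 := hY (e.symm a : Y) (e.symm a).2 (e.symm c : Y) (e.symm c).2 (hne a ha.1) (hne c hc.1)
      (fun h => hac (e.symm.injective (Subtype.ext h)))
    rcases h1 with h1 | h1 | h1
    · exact ha.2 h1
    · exact hc.2 h1
    · apply hac'.2
      rw [map_add]
      exact h1
  obtain ⟨W, -, hWk, hWw⟩ := hW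
  refine ⟨W.map (Y.subtype ∘ₗ (e.symm : (Fin (finrank (ZMod 2) Y) → ZMod 2) →ₗ[ZMod 2] Y)),
    ?_, ?_, ?_⟩
  · rintro x ⟨w, -, rfl⟩
    exact (e.symm w).2
  · rintro x ⟨w, hw, rfl⟩ hx0
    have hw0 : w ≠ 0 := fun h => hx0 (by rw [h, map_zero])
    have h1 := hWw w hw hw0
    by_contra hx
    exact h1 ⟨hw0, hx⟩
  · have hinj : Function.Injective
        (Y.subtype ∘ₗ (e.symm : (Fin (finrank (ZMod 2) Y) → ZMod 2) →ₗ[ZMod 2] Y)) := by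
      intro u v huv
      exact e.symm.injective (Subtype.ext huv)
    rw [← hWk]
    exact (LinearEquiv.finrank_eq (Submodule.equivMapOfInjective _ hinj W)).symm

/-- the Ramsey input for `assemble`, from `schur5` -/
theorem ramsey_input (C : ℝ) (hC : 1 ≤ C)
    (hs : ∀ m n : ℕ, 1 ≤ m → C * (m : ℝ) ^ 5 * Real.log (1 + m) ^ 2 ≤ n →
      ∀ X : Set (Fin n → ZMod 2), (0 : Fin n → ZMod 2) ∉ X → ¬ HasWhite (p := 2) X ⊤ m →
      ∃ a ∈ X, ∃ b ∈ X, a ≠ b ∧ a + b ∈ X)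
    (V : Type) [AddCommGroup V] [Module (ZMod 2) V] [Finite V] (X : Set V) (m : ℕ) (hm1 : 1 ≤ m)
    (hm : ∀ B : Submodule (ZMod 2) V, (∀ x ∈ B, x ≠ 0 → x ∈ X) → finrank (ZMod 2) B < m)
    (Y : Submodule (ZMod 2) V)
    (hY : ∀ a ∈ Y, ∀ b ∈ Y, a ≠ 0 → b ≠ 0 → a ≠ b → (a ∈ X ∨ b ∈ X ∨ a + b ∈ X)) :
    ∃ B : Submodule (ZMod 2) V, B ≤ Y ∧ (∀ x ∈ B, x ≠ 0 → x ∈ X) ∧
      (finrank (ZMod 2) Y : ℝ) ≤
        (C * Real.log (1 + m) ^ 2) * ((finrank (ZMod 2) B : ℝ) + 1) ^ 5 := by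
  classical
  have hblack := c8a_black C hs V X Y hY
  have hPm : ¬ C * (m : ℝ) ^ 5 * Real.log (1 + m) ^ 2 ≤ (finrank (ZMod 2) Y : ℕ) := by
    intro h
    obtain ⟨B, -, hBX, hBm⟩ := hblack m hm1 h
    exact absurd (hm B hBX) (by omega)
  have hex : ∃ k : ℕ, ¬ C * ((k + 1 : ℕ) : ℝ) ^ 5 * Real.log (1 + (k + 1 : ℕ)) ^ 2 ≤
      (finrank (ZMod 2) Y : ℕ) := by
    refine ⟨m - 1, ?_⟩
    rw [Nat.sub_add_cancel hm1]
    exact hPm
  set k := Nat.find hex with hk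
  have hk1 := Nat.find_spec hex
  rw [← hk] at hk1
  push Not at hk1
  have hkm : k + 1 ≤ m := by
    have : k ≤ m - 1 := Nat.find_min' hex (by rw [Nat.sub_add_cancel hm1]; exact hPm)
    omega
  have hB : ∃ B : Submodule (ZMod 2) V, B ≤ Y ∧ (∀ x ∈ B, x ≠ 0 → x ∈ X) ∧
      finrank (ZMod 2) B = k := by
    rcases Nat.eq_zero_or_pos k with h0 | h0
    · refine ⟨⊥, bot_le, fun x hx hx0 => absurd ((Submodule.mem_bot _).1 hx) hx0, ?_⟩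
      rw [finrank_bot, h0]
    · refine hblack k h0 ?_
      have := Nat.find_min hex (m := k - 1) (by omega)
      rw [not_not, Nat.sub_add_cancel h0] at this
      exact this
  obtain ⟨B, hBY, hBX, hBk⟩ := hB
  refine ⟨B, hBY, hBX, ?_⟩
  rw [hBk]
  have hk0 : (0 : ℝ) ≤ k := Nat.cast_nonneg k
  have hkm' : ((k + 1 : ℕ) : ℝ) ≤ m := by exact_mod_cast hkm
  push_cast at hk1 hkm'
  have hlog0 : 0 ≤ Real.log (1 + ((k : ℝ) + 1)) := Real.log_nonneg (by linarith)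
  have hlog : Real.log (1 + ((k : ℝ) + 1)) ≤ Real.log (1 + m) :=
    Real.log_le_log (by linarith) (by linarith)
  have hsq : Real.log (1 + ((k : ℝ) + 1)) ^ 2 ≤ Real.log (1 + m) ^ 2 :=
    pow_le_pow_left₀ hlog0 hlog 2
  calc (finrank (ZMod 2) Y : ℝ) ≤ C * ((k : ℝ) + 1) ^ 5 * Real.log (1 + ((k : ℝ) + 1)) ^ 2 :=
        hk1.le
    _ ≤ C * ((k : ℝ) + 1) ^ 5 * Real.log (1 + m) ^ 2 :=
        mul_le_mul_of_nonneg_left hsq (by positivity)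
    _ = (C * Real.log (1 + m) ^ 2) * ((k : ℝ) + 1) ^ 5 := by ring

end EHProj.Exp5
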