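import Pool.Agent.Lib.MP_f4f4db_co.Exp5
import Pool.Agent.Lib.MP_f4f4db_co.Claw.Defs

/-!
# Claw-freeness of the set of vectors of a point set without an induced claw
-/

namespace EHProj.Exp5

open Module
open scoped LinearAlgebra.Projectivization

private theorem c8b_cases (v : Fin 3 → ZMod 2) :
    v = 0 ∨ v = ![1, 0, 0] ∨ v = ![0, 1, 0] ∨ v = ![0, 0, 1] ∨ v = ![1, 1, 0] ∨ v = ![1, 0, 1] ∨
      v = ![0, 1, 1] ∨ v = ![1, 1, 1] := by
  revert v; decide

private def c8b_lmap {n : ℕ} (x y z : Fin n → ZMod 2) :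
    (Fin 3 → ZMod 2) →ₗ[ZMod 2] (Fin n → ZMod 2) :=
  (LinearMap.proj (0 : Fin 3)).smulRight x + (LinearMap.proj (1 : Fin 3)).smulRight y +
    (LinearMap.proj (2 : Fin 3)).smulRight z

private theorem c8b_lmap_apply {n : ℕ} (x y z : Fin n → ZMod 2) (v : Fin 3 → ZMod 2) :
    c8b_lmap x y z v = v 0 • x + v 1 • y + v 2 • z := rfl

private theorem c8b_eq_of_add {n : ℕ} {a b : Fin n → ZMod 2} (h : a + b = 0) : a = b := by
  rw [← add_self b] at h
  exact add_right_cancel h

private theorem c8b_inj {n : ℕ} {x y z : Fin n → ZMod 2} (h : Ind3 x y z) :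
    Function.Injective (c8b_lmap x y z) := by
  obtain ⟨hx, hy, hxy, hz, hzx, hzy, hzxy⟩ := h
  rw [injective_iff_map_eq_zero]
  intro v hv
  rw [c8b_lmap_apply] at hv
  rcases c8b_cases v with rfl | rfl | rfl | rfl | rfl | rfl | rfl | rfl
  · rfl
  · exact absurd (by simpa using hv) hx
  · exact absurd (by simpa using hv) hy
  · exact absurd (by simpa using hv) hz
  · exact absurd (c8b_eq_of_add (by simpa using hv)) hxy
  · exact absurd (c8b_eq_of_add (by simpa using hv)).symm hzx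
  · exact absurd (c8b_eq_of_add (by simpa using hv)).symm hzy
  · exact absurd (c8b_eq_of_add (a := x + y) (b := z) (by simpa using hv)).symm hzxy

private theorem c8b_mk_eq {k : ℕ} {v w : Fin k → ZMod 2} (hv : v ≠ 0) (hw : w ≠ 0)
    (h : Projectivization.mk (ZMod 2) v hv = Projectivization.mk (ZMod 2) w hw) : v = w := by
  rw [Projectivization.mk_eq_mk_iff'] at h
  obtain ⟨a, ha⟩ := h
  have hc : ∀ c : ZMod 2, c = 0 ∨ c = 1 := by decide
  rcases hc a with rfl | rfl
  · rw [zero_smul] at ha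
    exact absurd ha.symm hv
  · rw [one_smul] at ha
    exact ha.symm

private theorem c8b_line {u v : Fin 3 → ZMod 2} (hu : u ≠ 0) (hv : v ≠ 0) (huv : u ≠ v)
    (H : Set (ℙ (ZMod 2) (Fin 3 → ZMod 2)))
    (hH : ∀ w, w ∈ vec H ↔ w = u ∨ w = v ∨ w = u + v) : IsLine (ZMod 2) H := by
  have hc : ∀ c : ZMod 2, c = 0 ∨ c = 1 := by decide
  refine ⟨Submodule.span (ZMod 2) (Set.range ![u, v]), ?_, ?_⟩
  · have hli : LinearIndependent (ZMod 2) ![u, v] := by
      rw [LinearIndependent.pair_iff]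
      intro s t hst
      rcases hc s with rfl | rfl <;> rcases hc t with rfl | rfl
      · exact ⟨rfl, rfl⟩
      · exact absurd (by simpa using hst) hv
      · exact absurd (by simpa using hst) hu
      · exact absurd (c8b_eq_of_add (by simpa using hst)) huv
    rw [finrank_span_eq_card hli]
    rfl
  · intro x
    induction x using Projectivization.ind with
    | h w hw =>
      rw [Projectivization.submodule_mk, Submodule.span_singleton_le_iff_mem, ← mem_vec H hw, hH]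
      have hr : Set.range ![u, v] = {u, v} := by
        simp [Matrix.range_cons, Matrix.range_empty, Set.pair_comm, Set.union_comm]
      rw [hr, Submodule.mem_span_pair]
      constructor
      · rintro (rfl | rfl | rfl)
        · exact ⟨1, 0, by simp⟩
        · exact ⟨0, 1, by simp⟩
        · exact ⟨1, 1, by simp⟩
      · rintro ⟨s, t, rfl⟩
        rcases hc s with rfl | rfl <;> rcases hc t with rfl | rfl
        · exact absurd (by simp) hw
        · right; left; simp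
        · left; simp
        · right; right; simp

private theorem c8b_equiv {x y z : Fin 3 → ZMod 2} (h : Ind3 x y z) :
    ∃ E : (Fin 3 → ZMod 2) ≃ₗ[ZMod 2] (Fin 3 → ZMod 2), ∀ v, E v = v 0 • x + v 1 • y + v 2 • z := by
  have h1 := c8b_inj h
  have h2 : Function.Surjective (c8b_lmap x y z) := Finite.surjective_of_injective h1
  refine ⟨LinearEquiv.ofBijective (c8b_lmap x y z) ⟨h1, h2⟩, fun v => ?_⟩
  rw [LinearEquiv.ofBijective_apply, c8b_lmap_apply]

/-- the final case distinction -/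
private theorem c8b_final {n : ℕ} {u1 u2 u3 : Fin 3 → ZMod 2} (hI : Ind3 u1 u2 u3)
    (Y : Set (Fin n → ZMod 2)) {x y z : Fin n → ZMod 2} (hx : x ∈ Y) (hy : y ∈ Y) (hz : z ∈ Y)
    (c1 : x + y ∉ Y) (c2 : x + z ∉ Y) (c3 : y + z ∉ Y) (c4 : x + y + z ∉ Y)
    (v : Fin 3 → ZMod 2) (hv : v ≠ 0) :
    v 0 • x + v 1 • y + v 2 • z ∈ Y ↔
      (v 0 • u1 + v 1 • u2 + v 2 • u3 = u1 ∨ v 0 • u1 + v 1 • u2 + v 2 • u3 = u2 ∨
        v 0 • u1 + v 1 • u2 + v 2 • u3 = u3) := by
  obtain ⟨hu1, hu2, e12, hu3, e31, e32, e312⟩ := hI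
  have add_r : ∀ a b : Fin 3 → ZMod 2, a + b = a → b = 0 := fun a b h => by
    simpa using h
  have add_l : ∀ a b : Fin 3 → ZMod 2, a + b = b → a = 0 := fun a b h => by
    simpa using h
  rcases c8b_cases v with rfl | rfl | rfl | rfl | rfl | rfl | rfl | rfl
  · exact absurd rfl hv
  · have e : ((![1, 0, 0] : Fin 3 → ZMod 2) 0, (![1, 0, 0] : Fin 3 → ZMod 2) 1,
        (![1, 0, 0] : Fin 3 → ZMod 2) 2) = (1, 0, 0) := rfl
    simp only [Prod.mk.injEq] at e
    rw [e.1, e.2.1, e.2.2, one_smul, zero_smul, zero_smul, one_smul, zero_smul, zero_smul,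
      add_zero, add_zero, add_zero, add_zero]
    exact ⟨fun _ => Or.inl rfl, fun _ => hx⟩
  · have e : ((![0, 1, 0] : Fin 3 → ZMod 2) 0, (![0, 1, 0] : Fin 3 → ZMod 2) 1,
        (![0, 1, 0] : Fin 3 → ZMod 2) 2) = (0, 1, 0) := rfl
    simp only [Prod.mk.injEq] at e
    rw [e.1, e.2.1, e.2.2, zero_smul, one_smul, zero_smul, zero_smul, one_smul, zero_smul,
      add_zero, add_zero, zero_add, zero_add]
    exact ⟨fun _ => Or.inr (Or.inl rfl), fun _ => hy⟩
  · have e : ((![0, 0, 1] : Fin 3 → ZMod 2) 0, (![0, 0, 1] : Fin 3 → ZMod 2) 1,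
        (![0, 0, 1] : Fin 3 → ZMod 2) 2) = (0, 0, 1) := rfl
    simp only [Prod.mk.injEq] at e
    rw [e.1, e.2.1, e.2.2, zero_smul, zero_smul, one_smul, zero_smul, zero_smul, one_smul,
      zero_add, zero_add, zero_add, zero_add]
    exact ⟨fun _ => Or.inr (Or.inr rfl), fun _ => hz⟩
  · have e : ((![1, 1, 0] : Fin 3 → ZMod 2) 0, (![1, 1, 0] : Fin 3 → ZMod 2) 1,
        (![1, 1, 0] : Fin 3 → ZMod 2) 2) = (1, 1, 0) := rfl
    simp only [Prod.mk.injEq] at e
    rw [e.1, e.2.1, e.2.2, one_smul, one_smul, zero_smul, one_smul, one_smul, zero_smul,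
      add_zero, add_zero]
    refine ⟨fun h => absurd h c1, ?_⟩
    rintro (h | h | h)
    · exact absurd (add_r _ _ h) hu2
    · exact absurd (add_l _ _ h) hu1
    · exact absurd h.symm e312
  · have e : ((![1, 0, 1] : Fin 3 → ZMod 2) 0, (![1, 0, 1] : Fin 3 → ZMod 2) 1,
        (![1, 0, 1] : Fin 3 → ZMod 2) 2) = (1, 0, 1) := rfl
    simp only [Prod.mk.injEq] at e
    rw [e.1, e.2.1, e.2.2, one_smul, zero_smul, one_smul, one_smul, zero_smul, one_smul,
      add_zero, add_zero]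
    refine ⟨fun h => absurd h c2, ?_⟩
    rintro (h | h | h)
    · exact absurd (add_r _ _ h) hu3
    · refine absurd ?_ e312
      rw [← h, add_cancel']
    · exact absurd (add_l _ _ h) hu1
  · have e : ((![0, 1, 1] : Fin 3 → ZMod 2) 0, (![0, 1, 1] : Fin 3 → ZMod 2) 1,
        (![0, 1, 1] : Fin 3 → ZMod 2) 2) = (0, 1, 1) := rfl
    simp only [Prod.mk.injEq] at e
    rw [e.1, e.2.1, e.2.2, zero_smul, one_smul, one_smul, zero_smul, one_smul, one_smul,
      zero_add, zero_add]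
    refine ⟨fun h => absurd h c3, ?_⟩
    rintro (h | h | h)
    · refine absurd ?_ e312
      rw [← h, add_comm (u2 + u3) u2, add_cancel']
    · exact absurd (add_r _ _ h) hu3
    · exact absurd (add_l _ _ h) hu2
  · have e : ((![1, 1, 1] : Fin 3 → ZMod 2) 0, (![1, 1, 1] : Fin 3 → ZMod 2) 1,
        (![1, 1, 1] : Fin 3 → ZMod 2) 2) = (1, 1, 1) := rfl
    simp only [Prod.mk.injEq] at e
    rw [e.1, e.2.1, e.2.2, one_smul, one_smul, one_smul, one_smul, one_smul, one_smul]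
    refine ⟨fun h => absurd h c4, ?_⟩
    rintro (h | h | h)
    · rw [add_assoc] at h
      exact absurd (c8b_eq_of_add (add_r _ _ h)).symm e32
    · rw [add_comm u1 u2, add_assoc] at h
      exact absurd (c8b_eq_of_add (add_r _ _ h)).symm e31
    · exact absurd (c8b_eq_of_add (add_l _ _ h)) e12

/-- claw-freeness of `vec X` from `H`-freeness, `H` three non-collinear points -/
theorem clawFree_of_free {n : ℕ} (H : Set (ℙ (ZMod 2) (Fin 3 → ZMod 2)))
    (hH : H.ncard = 3 ∧ ¬ IsLine (ZMod 2) H) (X : Set (ℙ (ZMod 2) (Fin n → ZMod 2)))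
    (hX : ¬ ContainsInduced (ZMod 2) H X) : Claw.ClawFree (vec X) := by
  obtain ⟨hcard, hline⟩ := hH
  obtain ⟨P1, P2, P3, h12, h13, h23, hHeq⟩ := Set.ncard_eq_three.1 hcard
  obtain ⟨u1, hu1, rfl⟩ : ∃ u, ∃ hu : u ≠ 0, P1 = Projectivization.mk (ZMod 2) u hu :=
    ⟨P1.rep, P1.rep_nonzero, (Projectivization.mk_rep P1).symm⟩
  obtain ⟨u2, hu2, rfl⟩ : ∃ u, ∃ hu : u ≠ 0, P2 = Projectivization.mk (ZMod 2) u hu :=
    ⟨P2.rep, P2.rep_nonzero, (Projectivization.mk_rep P2).symm⟩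
  obtain ⟨u3, hu3, rfl⟩ : ∃ u, ∃ hu : u ≠ 0, P3 = Projectivization.mk (ZMod 2) u hu :=
    ⟨P3.rep, P3.rep_nonzero, (Projectivization.mk_rep P3).symm⟩
  have e12 : u1 ≠ u2 := fun h => h12 (by subst h; rfl)
  have e13 : u1 ≠ u3 := fun h => h13 (by subst h; rfl)
  have e23 : u2 ≠ u3 := fun h => h23 (by subst h; rfl)
  have hvec : ∀ w, w ∈ vec H ↔ w = u1 ∨ w = u2 ∨ w = u3 := by
    intro w
    constructor
    · rintro ⟨hw, h⟩
      rw [hHeq] at h
      rcases h with h | h | h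
      · exact Or.inl (c8b_mk_eq hw hu1 h)
      · exact Or.inr (Or.inl (c8b_mk_eq hw hu2 h))
      · exact Or.inr (Or.inr (c8b_mk_eq hw hu3 h))
    · rintro (rfl | rfl | rfl)
      · exact ⟨hu1, by rw [hHeq]; exact Or.inl rfl⟩
      · exact ⟨hu2, by rw [hHeq]; exact Or.inr (Or.inl rfl)⟩
      · exact ⟨hu3, by rw [hHeq]; exact Or.inr (Or.inr rfl)⟩
  have e312 : u3 ≠ u1 + u2 := by
    intro h
    apply hline
    apply c8b_line hu1 hu2 e12 H
    intro w
    rw [hvec, h]
  have hI : Ind3 u1 u2 u3 := ⟨hu1, hu2, e12, hu3, e13.symm, e23.symm, e312⟩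
  intro x hx y hy z hz hxyz
  by_contra hcon
  push Not at hcon
  obtain ⟨c1, c2, c3, c4⟩ := hcon
  apply hX
  obtain ⟨E, hE⟩ := c8b_equiv hI
  have hL : Function.Injective ((c8b_lmap x y z).comp E.symm.toLinearMap) := by
    rw [LinearMap.coe_comp]
    exact (c8b_inj hxyz).comp E.symm.injective
  refine ⟨(c8b_lmap x y z).comp E.symm.toLinearMap, hL, fun P => ?_⟩
  induction P using Projectivization.ind with
  | h w hw =>
    have hLw : (c8b_lmap x y z).comp E.symm.toLinearMap w ≠ 0 :=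
      fun h => hw (hL (by rw [h, map_zero]))
    rw [Projectivization.map_mk, ← mem_vec X hLw, ← mem_vec H hw, hvec]
    obtain ⟨v, hv⟩ : ∃ v, v = E.symm w := ⟨_, rfl⟩
    have hw2 : w = v 0 • u1 + v 1 • u2 + v 2 • u3 := by
      rw [← hE, hv, E.apply_symm_apply]
    have h1 : (c8b_lmap x y z).comp E.symm.toLinearMap w = v 0 • x + v 1 • y + v 2 • z := by
      rw [LinearMap.comp_apply, LinearEquiv.coe_coe, ← hv, c8b_lmap_apply]
    have hv0 : v ≠ 0 := by
      rintro rfl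
      apply hw
      rw [hw2]
      simp
    rw [h1, hw2]
    exact c8b_final hI (vec X) hx hy hz c1 c2 c3 c4 v hv0

end EHProj.Exp5
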