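import Pool.Agent.Lib.MP_f4f4db_co.Claw.C7
import Pool.Agent.Lib.MP_f4f4db_co.Claw.C8a
import Pool.Agent.Lib.MP_f4f4db_co.Claw.C8b

/-! # The exponent one fifth: conclusion -/

namespace EHProj.Exp5

open Module
open scoped LinearAlgebra.Projectivization

/-- In every `H`-free set of points of `PG(n-1,2)` there is a homogeneous subspace of dimension `d`
with `n ≤ C d ^ 5 log (1 + d) ^ 2`. -/
def EHFive (k : ℕ) (H : Set (ℙ (ZMod 2) (Fin k → ZMod 2))) : Prop :=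
  ∃ C : ℝ, 0 < C ∧ ∀ n : ℕ, 1 ≤ n → ∀ X : Set (ℙ (ZMod 2) (Fin n → ZMod 2)),
    ¬ ContainsInduced (ZMod 2) H X →
    ∃ U : Submodule (ZMod 2) (Fin n → ZMod 2),
      (n : ℝ) ≤ C * (finrank (ZMod 2) U : ℝ) ^ 5 * Real.log (1 + finrank (ZMod 2) U) ^ 2 ∧
      ((∀ x : ℙ (ZMod 2) (Fin n → ZMod 2), x.submodule ≤ U → x ∈ X) ∨
       (∀ x : ℙ (ZMod 2) (Fin n → ZMod 2), x.submodule ≤ U → x ∉ X))

/-- The Erdős–Hajnal property with exponent `δ`. -/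
def EHExponent (k : ℕ) (H : Set (ℙ (ZMod 2) (Fin k → ZMod 2))) (δ : ℝ) : Prop :=
  ∃ C : ℝ, 0 < C ∧ ∀ n : ℕ, 1 ≤ n → ∀ X : Set (ℙ (ZMod 2) (Fin n → ZMod 2)),
    ¬ ContainsInduced (ZMod 2) H X →
    ∃ U : Submodule (ZMod 2) (Fin n → ZMod 2), C * (n : ℝ) ^ δ < (finrank (ZMod 2) U : ℝ) ∧
      ((∀ x : ℙ (ZMod 2) (Fin n → ZMod 2), x.submodule ≤ U → x ∈ X) ∨
       (∀ x : ℙ (ZMod 2) (Fin n → ZMod 2), x.submodule ≤ U → x ∉ X))

theorem ehExponent_of_five {k : ℕ} {H : Set (ℙ (ZMod 2) (Fin k → ZMod 2))} (h : EHFive k H)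
    {δ : ℝ} (hδ : δ < 1 / 5) : EHExponent k H δ := by
  obtain ⟨C, hC, hmain⟩ := h
  have hd1 : ∀ (n d : ℕ), 1 ≤ n → (n : ℝ) ≤ C * (d : ℝ) ^ 5 * Real.log (1 + d) ^ 2 → 1 ≤ d := by
    intro n d hn hd
    by_contra h0
    have h0 : d = 0 := by omega
    have hn' : (1 : ℝ) ≤ n := by exact_mod_cast hn
    rw [h0] at hd
    norm_num at hd
    linarith
  rcases le_or_gt δ 0 with h0 | h0
  · refine ⟨1 / 2, by norm_num, fun n hn X hX => ?_⟩
    obtain ⟨U, hU, hU'⟩ := hmain n hn X hX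
    refine ⟨U, ?_, hU'⟩
    have h1 : (1 : ℝ) ≤ finrank (ZMod 2) U := by exact_mod_cast hd1 n _ hn hU
    have h2 : (n : ℝ) ^ δ ≤ 1 :=
      Real.rpow_le_one_of_one_le_of_nonpos (by exact_mod_cast hn) h0
    linarith
  · set ε : ℝ := (1 / δ - 5) / 2 with hε
    have hδ5 : 5 < 1 / δ := by
      rw [lt_div_iff₀ h0]; linarith
    have hε0 : 0 < ε := by rw [hε]; linarith
    set K : ℝ := C * ((2 : ℝ) ^ ε / ε) ^ 2 with hK
    have hK0 : 0 < K := by positivity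
    refine ⟨1 / (2 * K ^ δ), by positivity, fun n hn X hX => ?_⟩
    obtain ⟨U, hU, hU'⟩ := hmain n hn X hX
    refine ⟨U, ?_, hU'⟩
    set d : ℕ := finrank (ZMod 2) U with hd
    have h1 : 1 ≤ d := hd1 n _ hn hU
    have h1' : (1 : ℝ) ≤ d := by exact_mod_cast h1
    have hd0 : (0 : ℝ) < d := by linarith
    have h2 : Real.log (1 + d) ≤ (2 : ℝ) ^ ε / ε * (d : ℝ) ^ ε := by
      calc Real.log (1 + d) ≤ (1 + (d : ℝ)) ^ ε / ε := Real.log_le_rpow_div (by positivity) hε0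
        _ ≤ (2 * (d : ℝ)) ^ ε / ε := by
            apply div_le_div_of_nonneg_right _ hε0.le
            exact Real.rpow_le_rpow (by positivity) (by linarith) hε0.le
        _ = (2 : ℝ) ^ ε / ε * (d : ℝ) ^ ε := by
            rw [Real.mul_rpow (by norm_num) hd0.le]; ring
    have h3 : 0 ≤ Real.log (1 + d) := Real.log_nonneg (by linarith)
    have h4 : Real.log (1 + d) ^ 2 ≤ ((2 : ℝ) ^ ε / ε) ^ 2 * ((d : ℝ) ^ ε) ^ 2 := by
      rw [← mul_pow]; exact pow_le_pow_left₀ h3 h2 2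
    have h5 : (n : ℝ) ≤ K * (d : ℝ) ^ (1 / δ) := by
      have e1 : (d : ℝ) ^ (1 / δ) = (d : ℝ) ^ 5 * ((d : ℝ) ^ ε) ^ 2 := by
        rw [← Real.rpow_natCast ((d : ℝ) ^ ε) 2, ← Real.rpow_mul hd0.le,
          ← Real.rpow_natCast (d : ℝ) 5, ← Real.rpow_add hd0]
        congr 1
        rw [hε]; push_cast; ring
      rw [e1]
      calc (n : ℝ) ≤ C * (d : ℝ) ^ 5 * Real.log (1 + d) ^ 2 := hU
        _ ≤ C * (d : ℝ) ^ 5 * (((2 : ℝ) ^ ε / ε) ^ 2 * ((d : ℝ) ^ ε) ^ 2) := by gcongr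
        _ = K * ((d : ℝ) ^ 5 * ((d : ℝ) ^ ε) ^ 2) := by rw [hK]; ring
    have h6 : (n : ℝ) ^ δ ≤ K ^ δ * d := by
      calc (n : ℝ) ^ δ ≤ (K * (d : ℝ) ^ (1 / δ)) ^ δ :=
            Real.rpow_le_rpow (by positivity) h5 h0.le
        _ = K ^ δ * d := by
            rw [Real.mul_rpow hK0.le (by positivity), ← Real.rpow_mul hd0.le,
              one_div_mul_cancel h0.ne', Real.rpow_one]
    have hKδ : 0 < K ^ δ := Real.rpow_pos_of_pos hK0 δ
    calc 1 / (2 * K ^ δ) * (n : ℝ) ^ δ ≤ 1 / (2 * K ^ δ) * (K ^ δ * d) := by gcongr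
      _ = d / 2 := by field_simp
      _ < d := by linarith

theorem to_proj {n : ℕ} (C : ℝ) (X : Set (ℙ (ZMod 2) (Fin n → ZMod 2)))
    (h : ∃ d : ℕ, (n : ℝ) ≤ C * gro d ∧
      (HasBlack (p := 2) (vec X) ⊤ d ∨ HasWhite (p := 2) (vec X) ⊤ d)) :
    ∃ U : Submodule (ZMod 2) (Fin n → ZMod 2),
      (n : ℝ) ≤ C * (finrank (ZMod 2) U : ℝ) ^ 5 * Real.log (1 + finrank (ZMod 2) U) ^ 2 ∧
      ((∀ x : ℙ (ZMod 2) (Fin n → ZMod 2), x.submodule ≤ U → x ∈ X) ∨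
       (∀ x : ℙ (ZMod 2) (Fin n → ZMod 2), x.submodule ≤ U → x ∉ X)) := by
  obtain ⟨d, hd, h⟩ := h
  have hd' : (n : ℝ) ≤ C * (d : ℝ) ^ 5 * Real.log (1 + d) ^ 2 := by
    unfold gro at hd
    rw [mul_assoc]; exact hd
  rcases h with ⟨W, -, hW, hWX⟩ | ⟨W, -, hW, hWX⟩
  · refine ⟨W, by rw [hW]; exact hd', Or.inl fun y => ?_⟩
    induction y using Projectivization.ind with
    | h v hv =>
      intro hy
      rw [← mem_vec X hv]
      exact hWX v (mem_of_sub hv hy) hv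
  · refine ⟨W, by rw [hW]; exact hd', Or.inr fun y => ?_⟩
    induction y using Projectivization.ind with
    | h v hv =>
      intro hy
      rw [← mem_vec X hv]
      exact hWX v (mem_of_sub hv hy) hv

theorem five_two (H : Set (ℙ (ZMod 2) (Fin 2 → ZMod 2))) : EHFive 2 H := by
  obtain ⟨C, hC, hmain⟩ := vector_level
  refine ⟨C, hC, fun n hn X hX => to_proj C X (hmain n hn (vec X) (vec H) (fun ⟨h0, _⟩ => h0 rfl) ?_)⟩
  rintro ⟨L, hL, hLv⟩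
  refine hX ⟨L, hL, fun y => ?_⟩
  induction y using Projectivization.ind with
  | h v hv =>
    have hLv0 : L v ≠ 0 := fun h => hv (hL (by rw [h, map_zero]))
    rw [Projectivization.map_mk, ← mem_vec X hLv0, ← mem_vec H hv]
    exact hLv v hv

/-- a maximal white subspace -/
theorem exists_setup {n : ℕ} (X : Set (Fin n → ZMod 2)) (hX0 : (0 : Fin n → ZMod 2) ∉ X)
    (hcl : Claw.ClawFree X) : ∃ W : Submodule (ZMod 2) (Fin n → ZMod 2), Claw.Setup X W := by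
  classical
  have hfr : ∀ W : Submodule (ZMod 2) (Fin n → ZMod 2), finrank (ZMod 2) W ≤ n := fun W => by
    have := Submodule.finrank_le W
    rwa [Module.finrank_fin_fun] at this
  have h0 : HasWhite (p := 2) X ⊤ 0 :=
    ⟨⊥, le_top, finrank_bot _ _, fun w hw hw0 => absurd ((Submodule.mem_bot _).1 hw) hw0⟩
  set d := Nat.findGreatest (fun d => HasWhite (p := 2) X ⊤ d) n with hd
  have hP : HasWhite (p := 2) X ⊤ d :=
    Nat.findGreatest_spec (P := fun d => HasWhite (p := 2) X ⊤ d) (Nat.zero_le n) h0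
  obtain ⟨W, -, hWd, hW⟩ := hP
  have hWw : ∀ w ∈ W, w ∉ X := by
    intro w hw
    by_cases hw0 : w = 0
    · rw [hw0]; exact hX0
    · exact hW w hw hw0
  refine ⟨W, hcl, hWw, fun v hv => ?_⟩
  by_contra hcon
  push Not at hcon
  have h1 : finrank (ZMod 2) (W ⊔ Submodule.span (ZMod 2) {v} :
      Submodule (ZMod 2) (Fin n → ZMod 2)) = d + 1 := by
    rw [Claw.finrank_sup_span hv, hWd]
  have h2 : HasWhite (p := 2) X ⊤ (d + 1) := by
    refine ⟨_, le_top, h1, fun x hx hx0 => ?_⟩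
    rcases Claw.mem_sup_span hx with h | h
    · exact hWw x h
    · have e : v + (x + v) = x := by rw [add_comm x v, Claw.add_add_cancel']
      rw [← e]
      exact hcon _ h
  have h3 : d + 1 ≤ n := by rw [← h1]; exact hfr _
  have h4 := Nat.le_findGreatest (P := fun d => HasWhite (p := 2) X ⊤ d) h3 h2
  omega

theorem claw_vector : ∃ C : ℝ, 0 < C ∧ ∀ n : ℕ, 1 ≤ n → ∀ X : Set (Fin n → ZMod 2),
    (0 : Fin n → ZMod 2) ∉ X → Claw.ClawFree X →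
      ∃ d : ℕ, (n : ℝ) ≤ C * gro d ∧ (HasBlack (p := 2) X ⊤ d ∨ HasWhite (p := 2) X ⊤ d) := by
  classical
  obtain ⟨C0, hC0, hs⟩ := schur5
  refine ⟨115200 * C0, by positivity, fun n hn X hX0 hcl => ?_⟩
  have hfr : ∀ W : Submodule (ZMod 2) (Fin n → ZMod 2), finrank (ZMod 2) W ≤ n := fun W => by
    have := Submodule.finrank_le W
    rwa [Module.finrank_fin_fun] at this
  set P : ℕ → Prop := fun d => HasBlack (p := 2) X ⊤ d ∨ HasWhite (p := 2) X ⊤ d with hP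
  set d := Nat.findGreatest P n with hd
  have hP1 : P 1 := one_dim hn X
  have hPd : P d := Nat.findGreatest_spec (P := P) hn hP1
  have hd1 : 1 ≤ d := Nat.le_findGreatest hn hP1
  have hmax : ∀ e, P e → e ≤ n → e ≤ d := fun e he hen => Nat.le_findGreatest hen he
  obtain ⟨W, hW⟩ := exists_setup X hX0 hcl
  have hB : ∀ B : Submodule (ZMod 2) (Fin n → ZMod 2), (∀ x ∈ B, x ≠ 0 → x ∈ X) →
      finrank (ZMod 2) B < d + 1 := fun B hB =>
    Nat.lt_succ_of_le (hmax _ (Or.inl ⟨B, le_top, rfl, hB⟩) (hfr B))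
  have hWd : finrank (ZMod 2) W < d + 1 :=
    Nat.lt_succ_of_le (hmax _ (Or.inr ⟨W, le_top, rfl, fun w hw _ => hW.white w hw⟩) (hfr W))
  have hs' : ∀ m n : ℕ, 1 ≤ m → (3 * C0) * (m : ℝ) ^ 5 * Real.log (1 + m) ^ 2 ≤ n →
      ∀ X : Set (Fin n → ZMod 2), (0 : Fin n → ZMod 2) ∉ X → ¬ HasWhite (p := 2) X ⊤ m →
      ∃ a ∈ X, ∃ b ∈ X, a ≠ b ∧ a + b ∈ X := by
    intro m n hm hmn
    refine hs m n hm (le_trans ?_ hmn)
    have : 0 ≤ (m : ℝ) ^ 5 * Real.log (1 + m) ^ 2 := by positivity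
    nlinarith
  have hl2 : 0.6931471803 < Real.log 2 := Real.log_two_gt_d9
  have hlog0 : Real.log 2 ≤ Real.log (1 + ((d + 1 : ℕ) : ℝ)) :=
    Real.log_le_log (by norm_num) (by push_cast; linarith [(Nat.cast_nonneg d : (0 : ℝ) ≤ d)])
  have hlog1 : (0.48 : ℝ) ≤ Real.log (1 + ((d + 1 : ℕ) : ℝ)) ^ 2 := by nlinarith
  have hmain := Claw.assemble hW (d + 1) hB hWd
    (3 * C0 * Real.log (1 + ((d + 1 : ℕ) : ℝ)) ^ 2) (by nlinarith)
    (fun Y hY => ramsey_input (3 * C0) (by linarith) hs' (Fin n → ZMod 2) X (d + 1)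
      (by omega) hB Y hY)
  rw [Module.finrank_fin_fun] at hmain
  refine ⟨d, ?_, hPd⟩
  have h1 := gro_succ d hd1
  have h2 : gro (d + 1) = ((d + 1 : ℕ) : ℝ) ^ 5 * Real.log (1 + ((d + 1 : ℕ) : ℝ)) ^ 2 := rfl
  have h3 : (n : ℝ) ≤ 900 * C0 * gro (d + 1) := by
    rw [h2]
    calc (n : ℝ) ≤ 300 * (3 * C0 * Real.log (1 + ((d + 1 : ℕ) : ℝ)) ^ 2) *
          ((d + 1 : ℕ) : ℝ) ^ 5 := hmain
      _ = _ := by ring
  nlinarith

theorem five_claw (H : Set (ℙ (ZMod 2) (Fin 3 → ZMod 2)))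
    (hH : H.ncard = 3 ∧ ¬ IsLine (ZMod 2) H) : EHFive 3 H := by
  obtain ⟨C, hC, hmain⟩ := claw_vector
  exact ⟨C, hC, fun n hn X hX => to_proj C X (hmain n hn (vec X) (fun ⟨h0, _⟩ => h0 rfl)
    (clawFree_of_free H hH X hX))⟩

theorem five_compl {k : ℕ} (H : Set (ℙ (ZMod 2) (Fin k → ZMod 2))) (h : EHFive k Hᶜ) :
    EHFive k H := by
  obtain ⟨C, hC, hmain⟩ := h
  refine ⟨C, hC, fun n hn X hX => ?_⟩
  have hX' : ¬ ContainsInduced (ZMod 2) Hᶜ Xᶜ := by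
    rintro ⟨L, hL, hLx⟩
    exact hX ⟨L, hL, fun x => not_iff_not.1 (by simpa only [Set.mem_compl_iff] using hLx x)⟩
  obtain ⟨U, hU, hU'⟩ := hmain n hn Xᶜ hX'
  refine ⟨U, hU, ?_⟩
  rcases hU' with h1 | h1
  · exact Or.inr fun x hx => h1 x hx
  · exact Or.inl fun x hx => by simpa using h1 x hx

end EHProj.Exp5
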