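import Pool.Agent.Lib.MP_f4f4db_co.Claw.Defs

/-!
# Claw-free point sets: the rules for triples of cosets (C1-C3)
-/

namespace EHProj.Claw

open Module

variable {V : Type} [AddCommGroup V] [Module (ZMod 2) V] {X : Set V} {W : Submodule (ZMod 2) V}

theorem self_add (v : V) : v + v = 0 := by
  have : (2 : ZMod 2) • v = 0 := by
    rw [show (2 : ZMod 2) = 0 from rfl, zero_smul]
  rwa [two_smul] at this

theorem add_add_cancel' (a b : V) : a + (a + b) = b := by
  rw [← add_assoc, self_add, zero_add]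

theorem dir_le {v : V} : Dir X W v ≤ W := fun _ h => h.1

private theorem dir_le_of {v v' : V} (h : v + v' ∈ W) : Dir X W v ≤ Dir X W v' := by
  intro d hd
  refine ⟨hd.1, fun w hw hX => ?_⟩
  have e : v + (v + v' + w) = v' + w := by
    rw [add_assoc v v' w, add_add_cancel']
  have := hd.2 (v + v' + w) (W.add_mem h hw) (by rw [e]; exact hX)
  rwa [e] at this

theorem dir_congr {v v' : V} (h : v + v' ∈ W) : Dir X W v = Dir X W v' :=
  le_antisymm (dir_le_of h) (dir_le_of (by rw [add_comm]; exact h))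

theorem add_mem_of_dir {v d : V} (hv : v ∈ X) (hd : d ∈ Dir X W v) : v + d ∈ X := by
  have := hd.2 0 W.zero_mem (by rwa [add_zero])
  rwa [add_zero] at this

theorem not_mem_add {a b : V} (ha : a ∉ W) (hab : a + b ∈ W) : b ∉ W := by
  intro hb
  apply ha
  have := W.add_mem hab hb
  rwa [add_assoc, self_add, add_zero] at this

theorem mem_dir (S : Setup X W) {a b : V} (ha : a ∈ X) (hb : b ∈ X) (haW : a ∉ W)
    (hab : a + b ∈ W) : a + b ∈ Dir X W a := by
  refine ⟨hab, fun w hw hc => ?_⟩
  have hbW : b ∉ W := not_mem_add haW hab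
  have hcW : a + w ∉ W := fun h => haW (by
    have := W.add_mem h hw
    rwa [add_assoc, self_add, add_zero] at this)
  have e1 : a + w + (a + b) = a + b + (a + w) := add_comm _ _
  rw [e1]
  by_cases h1 : a = b
  · rw [h1, self_add, zero_add, ← h1]; exact hc
  by_cases h2 : a + w = a
  · rw [h2, add_comm a b, add_assoc, self_add, add_zero]; exact hb
  by_cases h3 : a + w = b
  · rw [h3, add_assoc, self_add, add_zero]; exact ha
  have hI : Ind3 a b (a + w) := by
    refine ⟨fun h => haW (h ▸ W.zero_mem), fun h => hbW (h ▸ W.zero_mem), h1,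
      fun h => hcW (h ▸ W.zero_mem), h2, h3, fun h => hcW (h ▸ hab)⟩
  rcases S.claw a ha b hb (a + w) hc hI with h | h | h | h
  · exact absurd h (S.white _ hab)
  · rw [add_add_cancel'] at h
    exact absurd h (S.white _ hw)
  · refine absurd h (S.white _ ?_)
    have : b + (a + w) = (a + b) + w := by abel
    rw [this]; exact W.add_mem hab hw
  · exact h

theorem Tri.swap {p q r : V} (h : Tri W p q r) : Tri W q p r :=
  ⟨h.2.1, h.1, h.2.2.1, by rw [add_comm q p]; exact h.2.2.2⟩

theorem Tri.rot {p q r : V} (h : Tri W p q r) : Tri W q r p :=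
  ⟨h.2.1, h.2.2.1, h.1, by
    have : q + r + p = p + q + r := by abel
    rw [this]; exact h.2.2.2⟩

theorem Tri.ne {p q r : V} (h : Tri W p q r) : p ≠ q := by
  rintro rfl
  refine h.2.2.1 ?_
  have := h.2.2.2
  rwa [self_add, zero_add] at this

theorem Tri.shift {p q r a b c : V} (h : Tri W p q r) (ha : a ∈ W) (hb : b ∈ W) (hc : c ∈ W) :
    Tri W (p + a) (q + b) (r + c) := by
  refine ⟨fun h' => h.1 ?_, fun h' => h.2.1 ?_, fun h' => h.2.2.1 ?_, ?_⟩
  · have := W.add_mem h' ha
    rwa [add_assoc, self_add, add_zero] at this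
  · have := W.add_mem h' hb
    rwa [add_assoc, self_add, add_zero] at this
  · have := W.add_mem h' hc
    rwa [add_assoc, self_add, add_zero] at this
  · have : p + a + (q + b) + (r + c) = (p + q + r) + (a + b + c) := by abel
    rw [this]
    exact W.add_mem h.2.2.2 (W.add_mem (W.add_mem ha hb) hc)

theorem dir_shift {v a : V} (ha : a ∈ W) : Dir X W (v + a) = Dir X W v :=
  dir_congr (by
    have : v + a + v = a := by
      rw [add_comm v a, add_assoc, self_add, add_zero]
    rw [this]; exact ha)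

theorem triA (S : Setup X W) {p q r : V} (hT : Tri W p q r) (hp : p ∈ X) (hq : q ∈ X)
    (hr : r ∈ X) : p + q + r ∈ Dir X W p ∨ p + q + r ∈ Dir X W q ∨ p + q + r ∈ Dir X W r := by
  by_cases h0 : p + q + r = 0
  · left; rw [h0]; exact Submodule.zero_mem _
  have hI : Ind3 p q r := by
    refine ⟨fun h => hT.1 (h ▸ W.zero_mem), fun h => hT.2.1 (h ▸ W.zero_mem), hT.ne,
      fun h => hT.2.2.1 (h ▸ W.zero_mem), hT.rot.rot.ne, hT.rot.ne.symm, fun h => h0 ?_⟩
    rw [h, self_add]
  rcases S.claw p hp q hq r hr hI with h | h | h | h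
  · right; right
    have e : p + q + r = r + (p + q) := add_comm _ _
    rw [e]
    exact mem_dir S hr h hT.2.2.1 (by rw [← e]; exact hT.2.2.2)
  · right; left
    have e : p + q + r = q + (p + r) := by abel
    rw [e]
    exact mem_dir S hq h hT.2.1 (by rw [← e]; exact hT.2.2.2)
  · left
    have e : p + q + r = p + (q + r) := add_assoc _ _ _
    rw [e]
    exact mem_dir S hp h hT.1 (by rw [← e]; exact hT.2.2.2)
  · exact absurd h (S.white _ hT.2.2.2)

theorem triB (S : Setup X W) {p q r d : V} (hT : Tri W p q r) (hp : p ∈ X) (hq : q ∈ X)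
    (hd : d ∈ Dir X W p) (hd' : d ∉ Dir X W q) : p + q ∈ X ∨ p + q + d ∈ X := by
  have hd0 : d ≠ 0 := fun h => hd' (h ▸ Submodule.zero_mem _)
  have hdW : d ∈ W := hd.1
  have hpd : p + d ∈ X := add_mem_of_dir hp hd
  have hT' := hT.shift hdW W.zero_mem W.zero_mem
  rw [add_zero, add_zero] at hT'
  have e1 : p + (p + d) = d := add_add_cancel' p d
  have hI : Ind3 p (p + d) q := by
    refine ⟨fun h => hT.1 (h ▸ W.zero_mem), fun h => hT'.1 (h ▸ W.zero_mem), fun h => hd0 ?_,
      fun h => hT.2.1 (h ▸ W.zero_mem), hT.ne.symm, hT'.ne.symm, fun h => hT.2.1 ?_⟩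
    · simpa using h
    · rw [h, e1]; exact hdW
  rcases S.claw p hp (p + d) hpd q hq hI with h | h | h | h
  · rw [e1] at h
    exact absurd h (S.white _ hdW)
  · exact Or.inl h
  · right
    have : p + d + q = p + q + d := by abel
    rwa [this] at h
  · exfalso
    rw [e1] at h
    apply hd'
    have e2 : q + (d + q) = d := by rw [add_comm d q, add_add_cancel']
    have := mem_dir S hq h hT.2.1 (by rw [e2]; exact hdW)
    rwa [e2] at this

theorem exists_rep (S : Setup X W) {v : V} (hv : v ∉ W) : ∃ w ∈ W, v + w ∈ X := S.maxi v hv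

theorem tri_sup (S : Setup X W) {p q r : V} (hT : Tri W p q r) :
    ∀ x ∈ Dir X W p ⊔ Dir X W q ⊔ Dir X W r,
      x ∈ Dir X W p ∨ x ∈ Dir X W q ∨ x ∈ Dir X W r := by
  obtain ⟨w1, hw1, hp⟩ := S.maxi p hT.1
  obtain ⟨w2, hw2, hq⟩ := S.maxi q hT.2.1
  obtain ⟨w3, hw3, hr⟩ := S.maxi r hT.2.2.1
  have hT' := hT.shift hw1 hw2 hw3
  rw [← dir_shift (X := X) (v := p) hw1, ← dir_shift (X := X) (v := q) hw2,
    ← dir_shift (X := X) (v := r) hw3]
  generalize p + w1 = p' at *
  generalize q + w2 = q' at *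
  generalize r + w3 = r' at *
  have key : ∀ x ∈ Dir X W p' ⊔ Dir X W q' ⊔ Dir X W r', p' + q' + r' + x ∈ Dir X W p' ∨
      p' + q' + r' + x ∈ Dir X W q' ∨ p' + q' + r' + x ∈ Dir X W r' := by
    intro x hx
    obtain ⟨y, hy, c, hc, rfl⟩ := Submodule.mem_sup.1 hx
    obtain ⟨a, ha, b, hb, rfl⟩ := Submodule.mem_sup.1 hy
    have h := triA S (hT'.shift ha.1 hb.1 hc.1) (add_mem_of_dir hp ha) (add_mem_of_dir hq hb)
      (add_mem_of_dir hr hc)
    rw [dir_shift ha.1, dir_shift hb.1, dir_shift hc.1] at h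
    have e : p' + a + (q' + b) + (r' + c) = p' + q' + r' + (a + b + c) := by abel
    rwa [e] at h
  have ht : p' + q' + r' ∈ Dir X W p' ⊔ Dir X W q' ⊔ Dir X W r' := by
    have := key 0 (Submodule.zero_mem _)
    rw [add_zero] at this
    rcases this with h | h | h
    · exact Submodule.mem_sup_left (Submodule.mem_sup_left h)
    · exact Submodule.mem_sup_left (Submodule.mem_sup_right h)
    · exact Submodule.mem_sup_right h
  intro x hx
  have := key (p' + q' + r' + x) (Submodule.add_mem _ ht hx)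
  rwa [add_add_cancel'] at this

theorem tri_one (S : Setup X W) {p q r d : V} (hT : Tri W p q r) (hd : d ∈ Dir X W p)
    (hd' : d ∉ Dir X W q) :
    Dir X W p ⊔ Dir X W q ≤ Dir X W r ⊔ Submodule.span (ZMod 2) {d} := by
  obtain ⟨w1, hw1, hp⟩ := S.maxi p hT.1
  obtain ⟨w2, hw2, hq⟩ := S.maxi q hT.2.1
  have hT' := hT.shift hw1 hw2 W.zero_mem
  rw [add_zero] at hT'
  rw [← dir_shift (X := X) (v := p) hw1, ← dir_shift (X := X) (v := q) hw2]
  rw [← dir_shift (X := X) (v := p) hw1] at hd
  rw [← dir_shift (X := X) (v := q) hw2] at hd'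
  generalize p + w1 = p' at *
  generalize q + w2 = q' at *
  have hdW : d ∈ W := hd.1
  intro e he
  obtain ⟨a, ha, b, hb, rfl⟩ := Submodule.mem_sup.1 he
  -- two points of `X` in the coset of `r`
  have h1 : ∃ s, (s = 0 ∨ s = d) ∧ p' + q' + s ∈ X := by
    rcases triB S hT' hp hq hd hd' with h | h
    · exact ⟨0, Or.inl rfl, by rwa [add_zero]⟩
    · exact ⟨d, Or.inr rfl, h⟩
  have h2 : ∃ s, (s = 0 ∨ s = d) ∧ p' + q' + (a + b) + s ∈ X := by
    have hT2 := hT'.shift ha.1 hb.1 W.zero_mem
    rw [add_zero] at hT2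
    have e1 : p' + a + (q' + b) = p' + q' + (a + b) := by abel
    rcases triB S hT2 (add_mem_of_dir hp ha) (add_mem_of_dir hq hb)
      (by rw [dir_shift ha.1]; exact hd) (by rw [dir_shift hb.1]; exact hd') with h | h
    · exact ⟨0, Or.inl rfl, by rw [add_zero, ← e1]; exact h⟩
    · exact ⟨d, Or.inr rfl, by rw [← e1]; exact h⟩
  obtain ⟨s, hs, hsX⟩ := h1
  obtain ⟨s', hs', hsX'⟩ := h2
  have hsW : s ∈ W := by rcases hs with rfl | rfl; exacts [W.zero_mem, hdW]
  have hsW' : s' ∈ W := by rcases hs' with rfl | rfl; exacts [W.zero_mem, hdW]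
  have hsp : ∀ s, (s = 0 ∨ s = d) → s ∈ Submodule.span (ZMod 2) {d} := by
    rintro s (rfl | rfl)
    · exact Submodule.zero_mem _
    · exact Submodule.mem_span_singleton_self _
  have hrW : p' + q' + s ∉ W := by
    intro h
    refine hT'.2.2.1 ?_
    have h3 := W.add_mem (W.add_mem hT'.2.2.2 h) hsW
    have e2 : p' + q' + r + (p' + q' + s) + s = r + ((p' + p') + (q' + q') + (s + s)) := by abel
    rw [e2] at h3
    simpa only [self_add, add_zero] using h3
  have e3 : p' + q' + s + (p' + q' + (a + b) + s') = (a + b) + (s + s') := by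
    have : p' + q' + s + (p' + q' + (a + b) + s') =
      (a + b) + (s + s') + ((p' + p') + (q' + q')) := by abel
    rw [this, self_add, self_add, add_zero, add_zero]
  have hab : a + b ∈ W := W.add_mem ha.1 hb.1
  have h4 := mem_dir S hsX hsX' hrW (by
    rw [e3]; exact W.add_mem hab (W.add_mem hsW hsW'))
  rw [e3] at h4
  have h5 : Dir X W (p' + q' + s) = Dir X W r := by
    apply dir_congr
    have : p' + q' + s + r = (p' + q' + r) + s := by abel
    rw [this]
    exact W.add_mem hT'.2.2.2 hsW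
  rw [h5] at h4
  have e4 : a + b = ((a + b) + (s + s')) + (s + s') := by
    rw [add_assoc, self_add, add_zero]
  rw [e4]
  exact Submodule.add_mem _ (Submodule.mem_sup_left h4)
    (Submodule.mem_sup_right (Submodule.add_mem _ (hsp s hs) (hsp s' hs')))

theorem mem_sup_span {D : Submodule (ZMod 2) V} {d x : V}
    (h : x ∈ D ⊔ Submodule.span (ZMod 2) {d}) : x ∈ D ∨ x + d ∈ D := by
  obtain ⟨y, hy, z, hz, rfl⟩ := Submodule.mem_sup.1 h
  obtain ⟨c, rfl⟩ := Submodule.mem_span_singleton.1 hz
  have hc : ∀ c : ZMod 2, c = 0 ∨ c = 1 := by decide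
  rcases hc c with rfl | rfl
  · left; rw [zero_smul, add_zero]; exact hy
  · right; rw [one_smul, add_assoc, self_add, add_zero]; exact hy

theorem sup_span_le {D E : Submodule (ZMod 2) V} {d : V} (hD : D ≤ E) (hd : d ∈ E) :
    D ⊔ Submodule.span (ZMod 2) {d} ≤ E :=
  sup_le hD ((Submodule.span_singleton_le_iff_mem _ _).2 hd)

theorem cancel_left {D : Submodule (ZMod 2) V} {a b : V} (hab : a + b ∈ D) (ha : a ∈ D) :
    b ∈ D := by
  have := D.add_mem ha hab
  rwa [add_add_cancel'] at this

theorem cancel_right {D : Submodule (ZMod 2) V} {a b : V} (hab : a + b ∈ D) (hb : b ∈ D) :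
    a ∈ D := cancel_left (by rw [add_comm]; exact hab) hb

private theorem gamma_add (S : Setup X W) {p q r d e : V} (hT : Tri W p q r)
    (hd : d ∈ Dir X W p) (hd' : d ∉ Dir X W q) (he : e ∈ Dir X W q) (he' : e ∉ Dir X W p) :
    d + e ∈ Dir X W r := by
  rcases tri_sup S hT (d + e) (Submodule.mem_sup_left (Submodule.add_mem _
    (Submodule.mem_sup_left hd) (Submodule.mem_sup_right he))) with h | h | h
  · exact absurd (cancel_left h hd) he'
  · exact absurd (cancel_right h he) hd'
  · exact h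

private theorem gamma_not (S : Setup X W) {p q r d e : V} (hT : Tri W p q r)
    (hd : d ∈ Dir X W p) (hd' : d ∉ Dir X W q) (he : e ∈ Dir X W q) (he' : e ∉ Dir X W p) :
    d ∉ Dir X W r := by
  intro h
  have hde := gamma_add S hT hd hd' he he'
  have her : e ∈ Dir X W r := cancel_left hde h
  have h2 := tri_one S hT.rot.rot her he'
  have h3 : Dir X W q ⊔ Submodule.span (ZMod 2) {e} ≤ Dir X W q := sup_span_le le_rfl he
  exact hd' (h3 (h2 (Submodule.mem_sup_right hd)))

theorem gamma (S : Setup X W) {p q r d e : V} (hT : Tri W p q r) (hd : d ∈ Dir X W p)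
    (hd' : d ∉ Dir X W q) (he : e ∈ Dir X W q) (he' : e ∉ Dir X W p) :
    Dir X W p = (Dir X W p ⊓ Dir X W q) ⊔ Submodule.span (ZMod 2) {d} ∧
    Dir X W q = (Dir X W p ⊓ Dir X W q) ⊔ Submodule.span (ZMod 2) {e} ∧
    Dir X W r = (Dir X W p ⊓ Dir X W q) ⊔ Submodule.span (ZMod 2) {d + e} ∧
    d ∉ Dir X W r ∧ e ∉ Dir X W r := by
  have hde := gamma_add S hT hd hd' he he'
  have hdr := gamma_not S hT hd hd' he he'
  have her := gamma_not S hT.swap he he' hd hd'
  have hIr : Dir X W p ⊓ Dir X W q ≤ Dir X W r := by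
    intro x hx
    have h1 := gamma_add S hT (Submodule.add_mem _ hd hx.1)
      (fun h => hd' (cancel_right h hx.2)) he he'
    have e1 : d + x + e = (d + e) + x := by abel
    rw [e1] at h1
    exact cancel_left h1 hde
  refine ⟨le_antisymm ?_ (sup_span_le inf_le_left hd), le_antisymm ?_ (sup_span_le inf_le_right he),
    le_antisymm ?_ (sup_span_le hIr hde), hdr, her⟩
  · intro x hx
    have h1 := tri_one S hT.rot.rot.swap hd hdr
    rcases mem_sup_span (h1 (Submodule.mem_sup_left hx)) with h | h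
    · exact Submodule.mem_sup_left ⟨hx, h⟩
    · have h2 : x + d ∈ Dir X W p ⊓ Dir X W q := ⟨Submodule.add_mem _ hx hd, h⟩
      have e1 : x = x + d + d := by rw [add_assoc, self_add, add_zero]
      rw [e1]
      exact Submodule.add_mem _ (Submodule.mem_sup_left h2)
        (Submodule.mem_sup_right (Submodule.mem_span_singleton_self d))
  · intro x hx
    have h1 := tri_one S hT.rot he her
    rcases mem_sup_span (h1 (Submodule.mem_sup_left hx)) with h | h
    · exact Submodule.mem_sup_left ⟨h, hx⟩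
    · have h2 : x + e ∈ Dir X W p ⊓ Dir X W q := ⟨h, Submodule.add_mem _ hx he⟩
      have e1 : x = x + e + e := by rw [add_assoc, self_add, add_zero]
      rw [e1]
      exact Submodule.add_mem _ (Submodule.mem_sup_left h2)
        (Submodule.mem_sup_right (Submodule.mem_span_singleton_self e))
  · intro x hx
    have hQR : ∀ y ∈ Dir X W q, y ∈ Dir X W r → y ∈ Dir X W p ⊓ Dir X W q := by
      intro y hy hy'
      by_contra hcon
      have hyp : y ∉ Dir X W p := fun h => hcon ⟨h, hy⟩
      exact gamma_not S hT.swap hy hyp hd hd' hy'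
    have h1 := tri_one S hT.rot.rot hde (fun h => he' (cancel_left h hd))
    rcases mem_sup_span (h1 (Submodule.mem_sup_left hx)) with h | h
    · exact Submodule.mem_sup_left (hQR x h hx)
    · have h2 := hQR _ h (Submodule.add_mem _ hx hde)
      have e1 : x = x + (d + e) + (d + e) := by rw [add_assoc, self_add, add_zero]
      rw [e1]
      exact Submodule.add_mem _ (Submodule.mem_sup_left h2)
        (Submodule.mem_sup_right (Submodule.mem_span_singleton_self _))

theorem finrank_sup_span [Finite V] {D : Submodule (ZMod 2) V} {d : V} (hd : d ∉ D) :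
    finrank (ZMod 2) (D ⊔ Submodule.span (ZMod 2) {d} : Submodule (ZMod 2) V) =
      finrank (ZMod 2) D + 1 := by
  have hd0 : d ≠ 0 := fun h => hd (h ▸ D.zero_mem)
  have h1 := Submodule.finrank_sup_add_finrank_inf_eq D (Submodule.span (ZMod 2) {d})
  have h2 : D ⊓ Submodule.span (ZMod 2) {d} = ⊥ := by
    rw [eq_bot_iff]
    rintro x ⟨hx, hx'⟩
    obtain ⟨c, rfl⟩ := Submodule.mem_span_singleton.1 hx'
    have hc : ∀ c : ZMod 2, c = 0 ∨ c = 1 := by decide
    rcases hc c with rfl | rfl
    · rw [zero_smul]; exact Submodule.zero_mem _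
    · rw [one_smul] at hx
      exact absurd hx hd
  rw [h2, finrank_bot, finrank_span_singleton hd0, add_zero] at h1
  exact h1

theorem finrank_sup_span_le [Finite V] (D : Submodule (ZMod 2) V) (d : V) :
    finrank (ZMod 2) (D ⊔ Submodule.span (ZMod 2) {d} : Submodule (ZMod 2) V) ≤
      finrank (ZMod 2) D + 1 := by
  by_cases hd : d ∈ D
  · have : D ⊔ Submodule.span (ZMod 2) {d} = D :=
      le_antisymm (sup_span_le le_rfl hd) le_sup_left
    rw [this]; omega
  · rw [finrank_sup_span hd]

/-- incomparable directions have the same dimension, and the third direction is incomparable to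
both and has the same dimension -/
theorem gamma_dim [Finite V] (S : Setup X W) {p q r : V} (hT : Tri W p q r)
    (h1 : ¬ Dir X W p ≤ Dir X W q) (h2 : ¬ Dir X W q ≤ Dir X W p) :
    finrank (ZMod 2) (Dir X W p) = finrank (ZMod 2) (Dir X W q) ∧
    finrank (ZMod 2) (Dir X W r) = finrank (ZMod 2) (Dir X W p) ∧
    finrank (ZMod 2) (Dir X W p ⊔ Dir X W q : Submodule (ZMod 2) V) =
      finrank (ZMod 2) (Dir X W p) + 1 ∧
    finrank (ZMod 2) (Dir X W p ⊓ Dir X W q : Submodule (ZMod 2) V) + 1 =
      finrank (ZMod 2) (Dir X W p) ∧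
    ¬ Dir X W p ≤ Dir X W r ∧ ¬ Dir X W r ≤ Dir X W p := by
  obtain ⟨d, hd, hd'⟩ := Set.not_subset.1 h1
  obtain ⟨e, he, he'⟩ := Set.not_subset.1 h2
  have hd : d ∈ Dir X W p := hd
  have hd' : d ∉ Dir X W q := hd'
  have he : e ∈ Dir X W q := he
  have he' : e ∉ Dir X W p := he'
  obtain ⟨e1, e2, e3, h3, h4⟩ := gamma S hT hd hd' he he'
  have hde : d + e ∉ Dir X W p := fun h => he' (cancel_left h hd)
  have f1 : finrank (ZMod 2) (Dir X W p) =
      finrank (ZMod 2) (Dir X W p ⊓ Dir X W q : Submodule (ZMod 2) V) + 1 := by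
    conv_lhs => rw [e1]
    exact finrank_sup_span fun h => hd' h.2
  have f2 : finrank (ZMod 2) (Dir X W q) =
      finrank (ZMod 2) (Dir X W p ⊓ Dir X W q : Submodule (ZMod 2) V) + 1 := by
    conv_lhs => rw [e2]
    exact finrank_sup_span fun h => he' h.1
  have f3 : finrank (ZMod 2) (Dir X W r) =
      finrank (ZMod 2) (Dir X W p ⊓ Dir X W q : Submodule (ZMod 2) V) + 1 := by
    conv_lhs => rw [e3]
    exact finrank_sup_span fun h => hde h.1
  have f4 := Submodule.finrank_sup_add_finrank_inf_eq (Dir X W p) (Dir X W q)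
  refine ⟨by omega, by omega, by omega, by omega, fun h => h3 (h hd), fun h => hde (h ?_)⟩
  rw [e3]
  exact Submodule.mem_sup_right (Submodule.mem_span_singleton_self _)

/-- the third direction is determined by the first two, if these are incomparable -/
theorem gamma_third (S : Setup X W) {p q r p' q' r' : V} (hT : Tri W p q r)
    (hT' : Tri W p' q' r') (hp : Dir X W p = Dir X W p') (hq : Dir X W q = Dir X W q')
    (h1 : ¬ Dir X W p ≤ Dir X W q) (h2 : ¬ Dir X W q ≤ Dir X W p) :
    Dir X W r = Dir X W r' := by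
  obtain ⟨d, hd, hd'⟩ := Set.not_subset.1 h1
  obtain ⟨e, he, he'⟩ := Set.not_subset.1 h2
  obtain ⟨-, -, e3, -, -⟩ := gamma S hT (d := d) (e := e) hd hd' he he'
  obtain ⟨-, -, e3', -, -⟩ := gamma S hT' (d := d) (e := e) (by rw [← hp]; exact hd)
    (by rw [← hq]; exact hd') (by rw [← hq]; exact he) (by rw [← hp]; exact he')
  rw [e3, e3', hp, hq]

/-- and knowing the second and the third one recovers the first -/
theorem gamma_back (S : Setup X W) {p q r q' r' p' : V} (hT : Tri W p q r)
    (hT' : Tri W r' q' p') (hq : Dir X W q' = Dir X W q) (hr : Dir X W r' = Dir X W r)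
    (h1 : ¬ Dir X W p ≤ Dir X W q) (h2 : ¬ Dir X W q ≤ Dir X W p) :
    Dir X W p' = Dir X W p := by
  obtain ⟨d, hd, hd'⟩ := Set.not_subset.1 h1
  obtain ⟨e, he, he'⟩ := Set.not_subset.1 h2
  have hde := gamma_add S hT (d := d) (e := e) hd hd' he he'
  have her := gamma_not S hT.swap (d := e) (e := d) he he' hd hd'
  refine gamma_third S hT' hT.rot.swap hr hq ?_ ?_
  · rw [hr, hq]
    exact fun h => hd' (cancel_right (h hde) he)
  · rw [hr, hq]
    exact fun h => her (h he)

/-- the gap rule -/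
theorem gap [Finite V] (S : Setup X W) {p q r : V} (hT : Tri W p q r)
    (h : finrank (ZMod 2) (Dir X W q) + 2 ≤ finrank (ZMod 2) (Dir X W p)) :
    Dir X W r = Dir X W p ∧ (p ∈ X → q ∈ X → p + q ∈ X) := by
  have hmono : ∀ D E : Submodule (ZMod 2) V, D ≤ E → finrank (ZMod 2) D ≤ finrank (ZMod 2) E :=
    fun D E hDE => Submodule.finrank_mono hDE
  have hnp : ¬ Dir X W p ≤ Dir X W q := fun h' => by
    have := hmono _ _ h'
    omega
  have hqp : Dir X W q ≤ Dir X W p := by
    by_contra h2
    have := (gamma_dim S hT hnp h2).1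
    omega
  obtain ⟨d, hd, hd'⟩ := Set.not_subset.1 hnp
  have hd : d ∈ Dir X W p := hd
  have hd' : d ∉ Dir X W q := hd'
  have h3 := tri_one S hT hd hd'
  have h4 := hmono _ _ (le_sup_left.trans h3)
  have h5 := finrank_sup_span_le (Dir X W r) d
  have hnr : ¬ Dir X W r ≤ Dir X W q := fun h' => by
    have := hmono _ _ h'
    omega
  have hqr : Dir X W q ≤ Dir X W r := by
    by_contra h2
    have := (gamma_dim S hT.rot h2 hnr).1
    omega
  have hrp : Dir X W r = Dir X W p := by
    by_contra hne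
    have hcomp : Dir X W r ≤ Dir X W p ∨ Dir X W p ≤ Dir X W r := by
      by_contra hcon
      push Not at hcon
      have h6 := gamma_dim S hT.rot.rot hcon.1 hcon.2
      have h7 := h6.1
      have h8 := h6.2.1
      omega
    rcases hcomp with hc | hc
    · have hn : ¬ Dir X W p ≤ Dir X W r := fun h' => hne (le_antisymm hc h')
      obtain ⟨f, hf, hf'⟩ := Set.not_subset.1 hn
      have h6 := tri_one S hT.rot.rot.swap (d := f) hf hf'
      have h7 := hmono _ _ (le_sup_left.trans h6)
      have h8 := finrank_sup_span_le (Dir X W q) f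
      omega
    · have hn : ¬ Dir X W r ≤ Dir X W p := fun h' => hne (le_antisymm h' hc)
      obtain ⟨f, hf, hf'⟩ := Set.not_subset.1 hn
      have h6 := tri_one S hT.rot.rot (d := f) hf hf'
      have h7 := hmono _ _ (le_sup_left.trans h6)
      have h8 := finrank_sup_span_le (Dir X W q) f
      have h9 := hmono _ _ hc
      omega
  refine ⟨hrp, fun hp hq => ?_⟩
  obtain ⟨w, hw, hr⟩ := S.maxi r hT.2.2.1
  have hT' := hT.shift W.zero_mem W.zero_mem hw
  rw [add_zero, add_zero] at hT'
  have h6 := triA S hT' hp hq hr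
  have h7 : p + q + (r + w) ∈ Dir X W (r + w) := by
    rw [dir_shift hw, hrp]
    rw [dir_shift hw, hrp] at h6
    rcases h6 with h6 | h6 | h6
    · exact h6
    · exact hqp h6
    · exact h6
  have h8 := add_mem_of_dir hr h7
  have e : r + w + (p + q + (r + w)) = p + q := by
    rw [add_comm (p + q) (r + w), add_add_cancel']
  rwa [e] at h8

end EHProj.Claw
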